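import Mathlib
import Pool.Agent.Helper602.MK.J5b

/-!
# Statements for the metric Waring problem with shifts
-/

set_option autoImplicit false

namespace Pool.Agent.Y935.WR

open Finset MeasureTheory Filter
open Pool.Agent.Helper602.MK (ee)

noncomputable section

/-- Fejer weights: the proportion of pairs `i, j < M` with `i - j = t` -/
def Wt (M : ℕ) (t : ℤ) : ℝ :=
  (((range M ×ˢ range M).filter fun p : ℕ × ℕ => (p.1 : ℤ) - p.2 = t).card : ℝ) / (M : ℝ) ^ 2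

/-- one minus the Fejer kernel -/
def Vt (M : ℕ) (θ : ℝ) : ℝ := 1 - ‖(1 / (M : ℂ)) * ∑ i ∈ range M, ee (i * θ)‖ ^ 2

/-- the number of coincidences of an integer valued function on a finite set -/
def Jc {ι : Type} (A : Finset ι) (a : ι → ℤ) : ℕ :=
  ((A ×ˢ A).filter fun p : ι × ι => a p.1 = a p.2).card

/-- CIRC: the circle method. The number of weighted solutions of `a x + b y + c z = n` and its
average over a window differ by at most `S` times the square root of the number of coincidences. -/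
def S_CIRC : Prop := ∀ (ι κ τ : Type) (A : Finset ι) (B : Finset κ) (Z : Finset τ) (a : ι → ℤ)
  (b : κ → ℤ) (c : τ → ℤ) (w : τ → ℝ) (M : ℕ) (S : ℝ) (n : ℤ), 1 ≤ M → 0 ≤ S →
  (∀ θ : ℝ, |θ| ≤ 1 / 2 → ‖∑ z ∈ Z, (w z : ℂ) * ee (θ * (c z : ℝ))‖ * Vt M θ ≤ S) →
  |∑ x ∈ A, ∑ y ∈ B, ∑ z ∈ Z, w z * (if a x + b y + c z = n then 1 else 0) -
    ∑ x ∈ A, ∑ y ∈ B, ∑ z ∈ Z, w z * Wt M (n - a x - b y - c z)| ≤
    S * Real.sqrt ((Jc A a : ℝ) * Jc B b)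

/-- LOW: the density of the values `⌊α (z - μ) ^ k⌋`, `z ∈ (P, T P]`, weighted by
`sin (π α (z - μ) ^ k) ^ 2`, in windows of length `M` around `v`; the hypothesis says that the
exponential sums `∑ ee (α (z - μ) ^ k)` over intervals are small. Uniform in `α ≥ 1`. -/
def S_LOW : Prop := ∀ (k : ℕ) (μ κ : ℝ) (T : ℕ), 2 ≤ k → 0 < κ → κ < 1 → 2 ≤ T →
  ∃ c : ℝ, 0 < c ∧ ∀ᶠ P : ℕ in atTop, ∀ (α : ℝ) (M : ℕ) (v : ℤ) (E : ℝ), 1 ≤ α →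
    α * (P : ℝ) ^ ((k : ℝ) - κ) ≤ M → (M : ℝ) ≤ α * (P : ℝ) ^ k → 2 * α * (P : ℝ) ^ k ≤ v →
    (v : ℝ) ≤ α * (T * P : ℝ) ^ k / 2 →
    (∀ x₀ N : ℕ, x₀ + N ≤ T * P →
      ‖∑ n ∈ range N, ee (α * ((x₀ : ℝ) + n - μ) ^ k)‖ ≤ E) →
    E ≤ c * (M / (α * (P : ℝ) ^ (k - 1))) →
    c / (α * (P : ℝ) ^ (k - 1)) ≤ ∑ z ∈ Ioc P (T * P),
      Real.sin (Real.pi * (α * ((z : ℝ) - μ) ^ k)) ^ 2 * Wt M (v - ⌊α * ((z : ℝ) - μ) ^ k⌋)

/-- the tuples in `(P, 2 P]` -/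
def box (k P : ℕ) : Finset (Fin k → ℕ) := Fintype.piFinset fun _ => Ioc P (2 * P)

/-- the integer values -/
def val {k : ℕ} (α : ℝ) (μ : Fin k → ℝ) (x : Fin k → ℕ) : ℤ := ∑ i, ⌊α * ((x i : ℝ) - μ i) ^ k⌋

/-- MVS: the mean value over the shifts, uniform in `α ≥ 1`. -/
def S_MVS : Prop := ∀ (k R : ℕ), 2 ≤ k → ∃ C : ℝ, 0 < C ∧
  ∀ (α : ℝ) (P : ℕ), 1 ≤ α → 2 * R + 2 ≤ P →
    ∫⁻ μ in Set.univ.pi (fun _ : Fin k => Set.Icc (-(R : ℝ)) R),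
      (Jc (box k P) (val α μ) : ENNReal) ≤ ENNReal.ofReal (C * (P : ℝ) ^ k * (1 + Real.log P))

end

end Pool.Agent.Y935.WR
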