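import Mathlib
import Pool.Agent.H373R2.NB.Weyl

/-!
# Minor arcs for polynomials whose second coefficient is Diophantine
-/

set_option autoImplicit false

namespace Pool.Agent.Y935.WR

open Finset Polynomial
open Pool.Agent.Helper602.MK (ee)
open Pool.Agent.Helper602.MK.N_J5b (ee_add ee_zero norm_ee ee_int ee_add_int norm_one_sub_ee)
open Pool.Agent.H373R2.NB (Ph IW IW_all)

/-- `b` is badly approximable up to a power `A` -/
def Dio (A b : ℝ) : Prop := ∃ (c : ℝ), 0 < c ∧ ∀ (q : ℕ) (a : ℤ), 1 ≤ q →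
  c * (q : ℝ) ^ (-A) ≤ |q * b - a|

/-- a real polynomial gives a polynomial phase along a progression -/
lemma Ph_real (d : ℕ) : ∀ (f : ℝ[X]), f.natDegree ≤ d → ∀ (s q : ℝ),
    Ph d ((d.factorial : ℝ) * f.coeff d * q ^ d) (fun n => f.eval (s + q * n)) := by
  induction d with
  | zero =>
    intro f hf s q n
    have h1 : f = C (f.coeff 0) := eq_C_of_natDegree_le_zero hf
    rw [h1]; simp
  | succ d ih =>
    intro f hf s q h
    -- the difference polynomial
    set g : ℝ[X] := taylor (q * h) f - f with hg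
    have hcoef : g.natDegree ≤ d ∧ g.coeff d = (d + 1) * (q * h) * f.coeff (d + 1) := by
      have key : ∀ k, (taylor (q * h) f).coeff k = (hasseDeriv k f).eval (q * h) :=
        fun k => taylor_coeff _ _ _
      have hdeg : ∀ k, (hasseDeriv k f).natDegree ≤ f.natDegree - k := natDegree_hasseDeriv_le f
      constructor
      · rw [natDegree_le_iff_coeff_eq_zero]
        intro N hN
        rw [hg, coeff_sub, key]
        rcases Nat.lt_or_ge N (d + 2) with h2 | h2
        · have h3 : N = d + 1 := by omega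
          subst h3
          have h4 : (hasseDeriv (d + 1) f).natDegree ≤ 0 := (hdeg _).trans (by omega)
          rw [eq_C_of_natDegree_le_zero h4, eval_C, hasseDeriv_coeff]
          simp
        · have h4 : f.coeff N = 0 := coeff_eq_zero_of_natDegree_lt (by omega)
          have h5 : hasseDeriv N f = 0 := hasseDeriv_eq_zero_of_lt_natDegree f N (by omega)
          rw [h4, h5]; simp
      · rw [hg, coeff_sub, key]
        have h4 : (hasseDeriv d f).natDegree ≤ 1 := (hdeg _).trans (by omega)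
        rw [eq_X_add_C_of_natDegree_le_one h4]
        simp only [eval_add, eval_mul, eval_C, eval_X, hasseDeriv_coeff]
        have h6 : ((1 + d).choose d : ℝ) = d + 1 := by
          rw [add_comm 1 d, Nat.choose_succ_self_right]; push_cast; ring
        rw [h6]
        simp only [zero_add, Nat.choose_self, Nat.cast_one, one_mul]
        rw [add_comm 1 d]; ring
    have h1 := ih g hcoef.1 s q
    rw [hcoef.2] at h1
    have e1 : (fun n : ℕ => g.eval (s + q * (n : ℝ))) =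
        fun n : ℕ => f.eval (s + q * ((n + h : ℕ) : ℝ)) - f.eval (s + q * (n : ℝ)) := by
      funext n
      rw [hg, eval_sub, taylor_eval]
      congr 2
      push_cast; ring
    rw [e1] at h1
    convert h1 using 1
    rw [Nat.factorial_succ]; push_cast; ring

/-- splitting a sum into progressions of difference `q` and length `Y` -/
lemma split (F : ℕ → ℂ) (hF : ∀ n, ‖F n‖ ≤ 1) (q Y : ℕ) (hq : 1 ≤ q) (hY : 1 ≤ Y) (E : ℝ)
    (N : ℕ) (hE : ∀ s, s + q * Y ≤ N + q → ‖∑ y ∈ range Y, F (s + q * y)‖ ≤ E) :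
    ‖∑ n ∈ range N, F n‖ ≤ ((N / (q * Y) : ℕ) : ℝ) * (q * E) + q * Y := by
  have h1 : ∀ (G : ℕ → ℂ) (Z : ℕ), ∑ l ∈ range (q * Z), G l =
      ∑ r ∈ range q, ∑ y ∈ range Z, G (r + q * y) := by
    intro G Z
    induction Z with
    | zero => simp
    | succ Z ih =>
      rw [mul_add, mul_one, sum_range_add, ih, ← sum_add_distrib]
      refine sum_congr rfl fun r _ => ?_
      rw [sum_range_succ, add_comm r (q * Z)]
  have h2 : ∀ B : ℕ, q * Y * B ≤ N → ‖∑ n ∈ range (q * Y * B), F n‖ ≤ (B : ℝ) * (q * E) := by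
    intro B
    induction B with
    | zero => intro _; simp
    | succ B ih =>
      intro hBN
      rw [mul_add, mul_one] at hBN
      have ih := ih (by omega)
      rw [mul_add, mul_one, sum_range_add]
      refine (norm_add_le _ _).trans ?_
      have h3 : ‖∑ x ∈ range (q * Y), F (q * Y * B + x)‖ ≤ q * E := by
        rw [h1 (fun x => F (q * Y * B + x)) Y]
        refine (norm_sum_le _ _).trans ?_
        have : ∀ r ∈ range q, ‖∑ y ∈ range Y, F (q * Y * B + (r + q * y))‖ ≤ E := by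
          intro r hr
          have hr' := mem_range.mp hr
          have := hE (q * Y * B + r) (by omega)
          simpa only [add_assoc] using this
        refine (sum_le_sum this).trans ?_
        simp
      push_cast
      linarith
  have h4 : N = q * Y * (N / (q * Y)) + N % (q * Y) := (Nat.div_add_mod N (q * Y)).symm
  have h5 : ∑ n ∈ range N, F n = ∑ n ∈ range (q * Y * (N / (q * Y))), F n +
      ∑ n ∈ range (N % (q * Y)), F (q * Y * (N / (q * Y)) + n) := by
    conv_lhs => rw [h4]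
    rw [sum_range_add]
  rw [h5]
  refine (norm_add_le _ _).trans (add_le_add (h2 _ (Nat.mul_div_le N (q * Y))) ?_)
  refine (norm_sum_le _ _).trans ?_
  refine (sum_le_sum fun n _ => hF _).trans ?_
  simp only [sum_const, card_range, nsmul_eq_mul, mul_one]
  have : N % (q * Y) < q * Y := Nat.mod_lt _ (by positivity)
  exact_mod_cast this.le

lemma norm_ee_sub (s t : ℝ) : ‖ee s - ee t‖ ≤ 2 * Real.pi * |s - t| := by
  have h1 : ee s - ee t = ee s * (1 - ee (t - s)) := by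
    have : ee t = ee s * ee (t - s) := by rw [← ee_add]; congr 1; ring
    rw [mul_sub, ← this]; ring
  rw [h1, norm_mul, norm_ee, one_mul, norm_one_sub_ee]
  have h2 : |Real.sin (Real.pi * (t - s))| ≤ |Real.pi * (t - s)| := Real.abs_sin_le_abs
  rw [abs_mul, abs_of_pos Real.pi_pos, abs_sub_comm t s] at h2
  linarith

/-- difference of powers -/
lemma pow_sub_le {x y X : ℝ} (hx : 0 ≤ x) (hxX : x ≤ X) (hy : 0 ≤ y) (hyX : y ≤ X) (n : ℕ) :
    |x ^ (n + 1) - y ^ (n + 1)| ≤ (n + 1) * X ^ n * |x - y| := by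
  have h := abs_pow_sub_pow_le x y (n + 1)
  simp only [Nat.add_sub_cancel] at h
  refine h.trans ?_
  have hm : max |x| |y| ≤ X := by
    rw [abs_of_nonneg hx, abs_of_nonneg hy]; exact max_le hxX hyX
  have hm0 : 0 ≤ max |x| |y| := le_max_of_le_left (abs_nonneg x)
  have h2 : max |x| |y| ^ n ≤ X ^ n := pow_le_pow_left₀ hm0 hm n
  have h3 : (0:ℝ) ≤ |x - y| := abs_nonneg _
  push_cast
  calc |x - y| * ((n:ℝ) + 1) * max |x| |y| ^ n ≤ |x - y| * ((n:ℝ) + 1) * X ^ n := by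
        gcongr
    _ = _ := by ring

lemma alg1 (X S : ℝ) (hX : 0 < X) (hS : 0 < S) (d e1 e2 : ℕ) (c : ℝ) :
    c * X ^ d * (X / S ^ e2) * (S ^ e1 / X ^ (d + 1)) = c * (S ^ e1 / S ^ e2) := by
  rw [pow_succ]; field_simp

lemma alg2 (S : ℝ) (hS : 0 < S) (d : ℕ) (w : ℝ) (hw : w ≤ 1 / (S * S))
    (hD : 8 * Real.pi * (d + 1) ≤ S) : 2 * Real.pi * (d + 1) * w ≤ 1 / (4 * S) := by
  have hpi := Real.pi_pos
  calc 2 * Real.pi * (d + 1) * w ≤ 2 * Real.pi * (d + 1) * (1 / (S * S)) := by gcongr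
    _ = (8 * Real.pi * (d + 1)) * (1 / (4 * (S * S))) := by ring
    _ ≤ S * (1 / (4 * (S * S))) := by gcongr
    _ = 1 / (4 * S) := by field_simp

lemma alg3 (Y S : ℝ) (hS : 0 < S) : Y / (2 * S) = Y / (4 * S) + Y / (4 * S) := by
  rw [← add_div, div_eq_div_iff (by positivity) (by positivity)]; ring

/-- two applications of the inverse theorem -/
theorem core (d : ℕ) (hd : 1 ≤ d) : ∃ (K : ℕ), 1 ≤ K ∧ ∀ (g : ℝ[X]), g.natDegree = d + 1 → g.Monic →
    ∃ (S₀ : ℝ), 1 ≤ S₀ ∧ ∀ (X S : ℝ), S₀ ≤ S → S ^ K ≤ X →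
      ∀ (x₀ N : ℕ) (lam : ℝ), (x₀ : ℝ) + N ≤ X → |lam| ≤ S →
      X < S * ‖∑ n ∈ range N, ee (lam * g.eval ((x₀ : ℝ) + n))‖ →
      |lam| ≤ S ^ K / X ^ (d + 1) ∨
      ∃ (Q : ℕ) (a : ℤ), 1 ≤ Q ∧ (Q : ℝ) ≤ S ^ K ∧ |Q * g.coeff d - a| ≤ S ^ K / X := by
  obtain ⟨c1, m1, hc1, h1⟩ := IW_all (d + 1) (by omega)
  obtain ⟨c2, m2, hc2, h2⟩ := IW_all d hd
  obtain ⟨e1, he1⟩ : ∃ e1, e1 = m1 + d + 2 := ⟨_, rfl⟩
  obtain ⟨e2, he2⟩ : ∃ e2, e2 = e1 + m1 + 4 := ⟨_, rfl⟩
  obtain ⟨K, hK⟩ : ∃ K, K = 2 * (m1 + 1) * (d + 1) + 2 * m2 + 2 * e1 + 2 * e2 + 20 := ⟨_, rfl⟩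
  refine ⟨K, by omega, fun g hg hm => ?_⟩
  set b : ℝ := g.coeff d with hb
  obtain ⟨S₀, hS₀⟩ : ∃ S₀ : ℝ, S₀ = c1 * (d + 1).factorial + 2 * c2 * 4 ^ m2 + |b| +
    8 * Real.pi * (d + 1) + (d.factorial : ℝ) + 10 := ⟨_, rfl⟩
  have hpi := Real.pi_pos
  have hc1' : (1 : ℝ) ≤ c1 := by exact_mod_cast hc1
  have hc2' : (1 : ℝ) ≤ c2 := by exact_mod_cast hc2
  have p1 : (0 : ℝ) < (d + 1).factorial := by exact_mod_cast Nat.factorial_pos _
  have p1' : (1 : ℝ) ≤ (d + 1).factorial := by exact_mod_cast Nat.factorial_pos _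
  have p2 : (1 : ℝ) ≤ (d.factorial : ℝ) := by exact_mod_cast Nat.factorial_pos _
  have p3 : (1 : ℝ) ≤ (4 : ℝ) ^ m2 := one_le_pow₀ (by norm_num)
  have p4 : 0 ≤ |b| := abs_nonneg b
  have q1a : (0 : ℝ) ≤ c1 * (d + 1).factorial := by positivity
  have q2a : (0 : ℝ) ≤ 2 * c2 * 4 ^ m2 := by positivity
  have q3a : (0 : ℝ) ≤ 8 * Real.pi * (d + 1) := by positivity
  refine ⟨S₀, by rw [hS₀]; linarith, fun X S hS hSX x₀ N lam hxN hlam hT => ?_⟩
  have hS10 : 10 ≤ S := by linarith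
  have hS1 : 1 ≤ S := by linarith
  have hS0 : 0 < S := by linarith
  have sA : (c1 : ℝ) * (d + 1).factorial ≤ S := by linarith
  have sB : 2 * (c2 : ℝ) * 4 ^ m2 ≤ S := by linarith
  have sC : |b| ≤ S := by linarith
  have sD : 8 * Real.pi * (d + 1) ≤ S := by linarith
  have sE : (d.factorial : ℝ) ≤ S := by linarith
  have sF : (c1 : ℝ) ≤ S := by
    refine le_trans ?_ sA
    exact le_mul_of_one_le_right (by linarith) p1'
  have hmono : ∀ {i j : ℕ}, i ≤ j → S ^ i ≤ S ^ j := fun h => pow_le_pow_right₀ hS1 h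
  have hSpos : ∀ i : ℕ, 0 < S ^ i := fun i => pow_pos hS0 i
  have hX0 : 0 < X := lt_of_lt_of_le (hSpos K) hSX
  have hX1 : 1 ≤ X := le_trans (one_le_pow₀ hS1) hSX
  have hXd1 : 1 ≤ X ^ d := one_le_pow₀ hX1
  set T : ℂ := ∑ n ∈ range N, ee (lam * g.eval ((x₀ : ℝ) + n)) with hTdef
  have hTN : ‖T‖ ≤ N := by
    refine (norm_sum_le _ _).trans ?_
    simp [norm_ee]
  have hNX : X / S < N := by
    rw [div_lt_iff₀ hS0]
    refine hT.trans_le ?_
    rw [mul_comm]; exact mul_le_mul_of_nonneg_right hTN hS0.le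
  have hN0 : (0 : ℝ) < N := lt_trans (div_pos hX0 hS0) hNX
  have hN1 : 1 ≤ N := by exact_mod_cast Nat.pos_of_ne_zero (by rintro rfl; simp at hN0)
  have hNX' : (N : ℝ) ≤ X := by linarith [Nat.cast_nonneg (α := ℝ) x₀]
  -- first application
  have hPh1 : Ph (d + 1) (((d + 1).factorial : ℝ) * lam)
      (fun n => lam * g.eval ((x₀ : ℝ) + n)) := by
    have h3 := Ph_real (d + 1) (C lam * g) ((natDegree_C_mul_le _ _).trans hg.le) (x₀ : ℝ) 1
    have h4 : (C lam * g).coeff (d + 1) = lam := by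
      rw [coeff_C_mul]
      have : g.coeff (d + 1) = 1 := by rw [← hg]; exact hm
      rw [this, mul_one]
    rw [h4] at h3
    simpa using h3
  obtain ⟨q1, hq1, hq1S, a1, ha1⟩ := h1 N S _ _ hN1 hS1 hPh1 (by
    exact le_trans hNX' hT.le)
  set q : ℕ := q1 * (d + 1).factorial with hq
  have hqpos : 1 ≤ q := Nat.one_le_iff_ne_zero.mpr (by positivity)
  have hq0 : (0 : ℝ) < q := by exact_mod_cast hqpos
  have hqS : (q : ℝ) ≤ S ^ (m1 + 1) := by
    rw [hq]; push_cast
    calc (q1 : ℝ) * (d + 1).factorial ≤ (c1 * S ^ m1) * (d + 1).factorial := by gcongr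
      _ = (c1 * (d + 1).factorial) * S ^ m1 := by ring
      _ ≤ S * S ^ m1 := mul_le_mul_of_nonneg_right sA (hSpos _).le
      _ = S ^ (m1 + 1) := by ring
  have hε1 : |q * lam - a1| ≤ S ^ e1 / X ^ (d + 1) := by
    have e3 : (q : ℝ) * lam - a1 = q1 * (((d + 1).factorial : ℝ) * lam) - a1 := by
      rw [hq]; push_cast; ring
    rw [e3]
    refine ha1.trans ?_
    have h5 : X ^ (d + 1) ≤ S ^ (d + 1) * (N : ℝ) ^ (d + 1) := by
      rw [← mul_pow]
      apply pow_le_pow_left₀ hX0.le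
      rw [div_lt_iff₀ hS0] at hNX
      linarith
    rw [div_le_div_iff₀ (by positivity) (by positivity)]
    calc (c1 : ℝ) * S ^ m1 * X ^ (d + 1) ≤ S * S ^ m1 * (S ^ (d + 1) * (N : ℝ) ^ (d + 1)) := by
          gcongr
      _ = S ^ e1 * (N : ℝ) ^ (d + 1) := by rw [he1]; ring
  by_cases ha0 : a1 = 0
  · left
    rw [ha0] at hε1
    simp only [Int.cast_zero, sub_zero] at hε1
    have h6 : |lam| ≤ |q * lam| := by
      rw [abs_mul, abs_of_pos hq0]
      exact le_mul_of_one_le_left (abs_nonneg _) (by exact_mod_cast hqpos)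
    refine h6.trans (hε1.trans ?_)
    exact div_le_div_of_nonneg_right (hmono (by omega)) (by positivity)
  right
  -- the block length
  set Y : ℕ := ⌊X / S ^ e2⌋₊ with hY
  have hYle : (Y : ℝ) ≤ X / S ^ e2 := Nat.floor_le (by positivity)
  have hXe2 : 1 ≤ X / S ^ e2 := by
    rw [le_div_iff₀ (hSpos _), one_mul]
    exact (hmono (by omega)).trans hSX
  have hYpos : 1 ≤ Y := by rw [hY]; exact (Nat.one_le_floor_iff _).mpr hXe2
  have hY0 : (0 : ℝ) < Y := by exact_mod_cast hYpos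
  have hYge : X / S ^ e2 ≤ 2 * Y := by
    have := Nat.lt_floor_add_one (X / S ^ e2)
    have h7 : (1 : ℝ) ≤ Y := by exact_mod_cast hYpos
    rw [← hY] at this
    linarith
  have hqY : (q : ℝ) * Y ≤ X / (4 * S) := by
    calc (q : ℝ) * Y ≤ S ^ (m1 + 1) * (X / S ^ e2) := by gcongr
      _ ≤ X / (4 * S) := by
        rw [← mul_div_assoc, div_le_div_iff₀ (hSpos _) (by positivity)]
        have h8 : S ^ (m1 + 1) * (4 * S) ≤ S ^ e2 := by
          calc S ^ (m1 + 1) * (4 * S) ≤ S ^ (m1 + 1) * (S * S) := by gcongr; linarith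
            _ = S ^ (m1 + 3) := by ring
            _ ≤ S ^ e2 := hmono (by omega)
        calc S ^ (m1 + 1) * X * (4 * S) = X * (S ^ (m1 + 1) * (4 * S)) := by ring
          _ ≤ X * S ^ e2 := mul_le_mul_of_nonneg_left h8 hX0.le
  -- a large progression
  obtain ⟨s, hsN, hs⟩ : ∃ s : ℕ, s + q * Y ≤ N + q ∧
      (Y : ℝ) / (2 * S) < ‖∑ y ∈ range Y, ee (lam * g.eval ((x₀ : ℝ) + ((s + q * y : ℕ) : ℝ)))‖ := by
    by_contra hcon
    push Not at hcon
    have h9 := split (fun n : ℕ => ee (lam * g.eval ((x₀ : ℝ) + (n : ℝ)))) (fun n => (norm_ee _).le)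
      q Y hqpos hYpos (Y / (2 * S)) N hcon
    have h10 : ((N / (q * Y) : ℕ) : ℝ) * (q * (Y / (2 * S))) ≤ N / (2 * S) := by
      have h11 : ((N / (q * Y) : ℕ) : ℝ) ≤ N / (q * Y : ℕ) := Nat.cast_div_le
      have h12 : ((q * Y : ℕ) : ℝ) = q * Y := by push_cast; ring
      rw [h12] at h11
      calc ((N / (q * Y) : ℕ) : ℝ) * (q * (Y / (2 * S))) ≤ (N / (q * Y)) * (q * (Y / (2 * S))) := by
            gcongr
        _ = N / (2 * S) := by field_simp
    have h13 : ‖T‖ ≤ X / (2 * S) + X / (4 * S) := by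
      refine h9.trans (add_le_add (h10.trans ?_) hqY)
      gcongr
    have h14 : S * ‖T‖ ≤ 3 / 4 * X := by
      calc S * ‖T‖ ≤ S * (X / (2 * S) + X / (4 * S)) := by gcongr
        _ = 3 / 4 * X := by field_simp; ring
    linarith
  set z : ℝ := (x₀ : ℝ) + s with hz
  have hz0 : 0 ≤ z := by positivity
  have hxy : ∀ y ∈ range Y, z + q * y ≤ X := by
    intro y hy
    have hy' := mem_range.mp hy
    have h15 : s + q * y ≤ N := by
      have : q * y + q ≤ q * Y := by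
        calc q * y + q = q * (y + 1) := by ring
          _ ≤ q * Y := Nat.mul_le_mul_left _ hy'
      omega
    have h16 : ((s + q * y : ℕ) : ℝ) ≤ N := by exact_mod_cast h15
    push_cast at h16
    rw [hz]; linarith
  have hzX : z ≤ X := by
    have := hxy 0 (mem_range.mpr hYpos)
    simpa using this
  set g₁ : ℝ[X] := g - (Polynomial.X : ℝ[X]) ^ (d + 1) with hg₁
  have hg₁d : g₁.natDegree ≤ d := by
    have h17 : g₁.degree < g.degree := by
      rw [hg₁]
      have hX : ((Polynomial.X : ℝ[X]) ^ (d + 1)).degree = g.degree := by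
        rw [degree_X_pow, degree_eq_natDegree hm.ne_zero, hg]
      exact degree_sub_lt_left hX.symm hm.ne_zero (by rw [hm.leadingCoeff, leadingCoeff_X_pow])
    rw [degree_eq_natDegree hm.ne_zero, hg] at h17
    have h18 : g₁.natDegree < d + 1 := by
      rcases eq_or_ne g₁ 0 with h | h
      · rw [h]; simp
      · exact (natDegree_lt_iff_degree_lt h).mpr h17
    omega
  have hg₁c : g₁.coeff d = b := by
    rw [hg₁, coeff_sub, coeff_X_pow, if_neg (by omega), sub_zero]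
  have hgev : ∀ x : ℝ, g.eval x = x ^ (d + 1) + g₁.eval x := by
    intro x; rw [hg₁]; simp
  set η : ℝ := lam - a1 / q with hη
  have hηq : q * η = q * lam - a1 := by rw [hη]; field_simp
  have hηb : q * |η| ≤ S ^ e1 / X ^ (d + 1) := by
    rw [← hηq, abs_mul, abs_of_pos hq0] at hε1
    exact hε1
  -- removing the top coefficient
  have hrem : (Y : ℝ) / (4 * S) ≤ ‖∑ y ∈ range Y, ee (lam * g₁.eval (z + q * y))‖ := by
    have h19 : ∀ y ∈ range Y, ee (lam * g.eval ((x₀ : ℝ) + ((s + q * y : ℕ) : ℝ))) =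
        ee ((a1 / q : ℝ) * z ^ (d + 1)) * (ee (η * (z + q * y) ^ (d + 1)) *
          ee (lam * g₁.eval (z + q * y))) := by
      intro y hy
      obtain ⟨w, hw⟩ : ∃ w : ℤ, (z + q * y) ^ (d + 1) - z ^ (d + 1) = q * (w : ℝ) := by
        have h20 : ((q : ℤ)) ∣ (((x₀ + s : ℕ) : ℤ) + q * y) ^ (d + 1) - ((x₀ + s : ℕ) : ℤ) ^ (d + 1) := by
          have h21 := sub_dvd_pow_sub_pow (((x₀ + s : ℕ) : ℤ) + q * y) ((x₀ + s : ℕ) : ℤ) (d + 1)
          refine dvd_trans ?_ h21
          rw [add_sub_cancel_left]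
          exact dvd_mul_right _ _
        obtain ⟨w, hw⟩ := h20
        refine ⟨w, ?_⟩
        have h22 := congrArg (Int.cast : ℤ → ℝ) hw
        push_cast at h22
        rw [hz]; exact h22
      have h23 : lam * g.eval ((x₀ : ℝ) + ((s + q * y : ℕ) : ℝ)) =
          ((a1 / q : ℝ) * z ^ (d + 1) + (η * (z + q * y) ^ (d + 1) +
            lam * g₁.eval (z + q * y))) + ((a1 * w : ℤ) : ℝ) := by
        have h24 : (x₀ : ℝ) + ((s + q * y : ℕ) : ℝ) = z + q * y := by
          rw [hz]; push_cast; ring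
        rw [h24, hgev]
        have h25 : ((a1 * w : ℤ) : ℝ) = (a1 / q : ℝ) * ((z + q * y) ^ (d + 1) - z ^ (d + 1)) := by
          rw [hw]; push_cast; field_simp
        rw [h25, hη]; ring
      rw [h23, ee_add_int, ee_add, ee_add]
    rw [sum_congr rfl h19, ← mul_sum, norm_mul, norm_ee, one_mul] at hs
    have h26 : ‖∑ y ∈ range Y, ee (η * (z + q * y) ^ (d + 1)) * ee (lam * g₁.eval (z + q * y))‖ ≤
        ‖∑ y ∈ range Y, ee (lam * g₁.eval (z + q * y))‖ + Y / (4 * S) := by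
      have h27 : ∑ y ∈ range Y, ee (η * (z + q * y) ^ (d + 1)) * ee (lam * g₁.eval (z + q * y)) =
          ee (η * z ^ (d + 1)) * ∑ y ∈ range Y, ee (lam * g₁.eval (z + q * y)) +
          ∑ y ∈ range Y, (ee (η * (z + q * y) ^ (d + 1)) - ee (η * z ^ (d + 1))) *
            ee (lam * g₁.eval (z + q * y)) := by
        rw [mul_sum, ← sum_add_distrib]
        refine sum_congr rfl fun y _ => ?_
        ring
      rw [h27]
      refine (norm_add_le _ _).trans (add_le_add ?_ ?_)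
      · rw [norm_mul, norm_ee, one_mul]
      · refine (norm_sum_le _ _).trans ?_
        have h28 : ∀ y ∈ range Y, ‖(ee (η * (z + q * y) ^ (d + 1)) - ee (η * z ^ (d + 1))) *
            ee (lam * g₁.eval (z + q * y))‖ ≤ 1 / (4 * S) := by
          intro y hy
          have hy' : (y : ℝ) ≤ Y := by exact_mod_cast (mem_range.mp hy).le
          rw [norm_mul, norm_ee, mul_one]
          refine (norm_ee_sub _ _).trans ?_
          rw [← mul_sub, abs_mul]
          have h29 := pow_sub_le (x := z + q * y) (y := z) (X := X) (by positivity) (hxy y hy) hz0 hzX d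
          rw [add_sub_cancel_left, abs_of_nonneg (by positivity : (0:ℝ) ≤ q * y)] at h29
          calc 2 * Real.pi * (|η| * |(z + q * y) ^ (d + 1) - z ^ (d + 1)|)
              ≤ 2 * Real.pi * (|η| * ((d + 1) * X ^ d * (q * Y))) := by
                gcongr
                refine h29.trans ?_
                gcongr
            _ = 2 * Real.pi * (d + 1) * X ^ d * Y * (q * |η|) := by ring
            _ ≤ 2 * Real.pi * (d + 1) * X ^ d * (X / S ^ e2) * (S ^ e1 / X ^ (d + 1)) := by gcongr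
            _ = 2 * Real.pi * (d + 1) * (S ^ e1 / S ^ e2) := alg1 X S hX0 hS0 d e1 e2 _
            _ ≤ 1 / (4 * S) := by
                have h30 : S ^ e1 / S ^ e2 ≤ 1 / (S * S) := by
                  rw [div_le_div_iff₀ (hSpos _) (by positivity), one_mul]
                  calc S ^ e1 * (S * S) = S ^ (e1 + 2) := by ring
                    _ ≤ S ^ e2 := hmono (by omega)
                exact alg2 S hS0 d _ h30 sD
        refine (sum_le_sum h28).trans ?_
        simp only [sum_const, card_range, nsmul_eq_mul]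
        apply le_of_eq; ring
    have h31 := alg3 (Y : ℝ) S hS0
    linarith
  -- second application
  have hPh2 : Ph d ((d.factorial : ℝ) * (lam * b) * (q : ℝ) ^ d)
      (fun y : ℕ => lam * g₁.eval (z + q * y)) := by
    have h3 := Ph_real d (C lam * g₁) ((natDegree_C_mul_le _ _).trans hg₁d) z q
    rw [coeff_C_mul, hg₁c] at h3
    simpa using h3
  obtain ⟨q2, hq2, hq2S, a2, ha2⟩ := h2 Y (4 * S) _ _ hYpos (by linarith) hPh2 (by
    rw [div_le_iff₀ (by positivity)] at hrem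
    linarith)
  have hq2S' : (q2 : ℝ) ≤ S ^ (m2 + 1) := by
    calc (q2 : ℝ) ≤ c2 * (4 * S) ^ m2 := hq2S
      _ = (c2 * 4 ^ m2) * S ^ m2 := by rw [mul_pow]; ring
      _ ≤ S * S ^ m2 := by
        refine mul_le_mul_of_nonneg_right ?_ (hSpos _).le
        refine le_trans ?_ sB
        have : (0:ℝ) ≤ c2 * 4 ^ m2 := by positivity
        calc (c2 : ℝ) * 4 ^ m2 ≤ c2 * 4 ^ m2 + c2 * 4 ^ m2 := le_add_of_nonneg_left this
          _ = 2 * c2 * 4 ^ m2 := by ring
      _ = S ^ (m2 + 1) := by ring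
  have ha2' : |q2 * ((d.factorial : ℝ) * (lam * b) * (q : ℝ) ^ d) - a2| ≤ S ^ (m2 + e2 + 1) / X := by
    refine ha2.trans ?_
    have h32 : X ≤ 2 * Y * S ^ e2 := by
      rwa [div_le_iff₀ (hSpos _)] at hYge
    have h33 : (Y : ℝ) ≤ (Y : ℝ) ^ d := by
      calc (Y : ℝ) = (Y : ℝ) ^ 1 := (pow_one _).symm
        _ ≤ (Y : ℝ) ^ d := pow_le_pow_right₀ (by exact_mod_cast hYpos) hd
    rw [div_le_div_iff₀ (by positivity) hX0]
    calc (c2 : ℝ) * (4 * S) ^ m2 * X ≤ c2 * (4 * S) ^ m2 * (2 * Y * S ^ e2) := by gcongr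
      _ = (2 * c2 * 4 ^ m2) * (S ^ m2 * S ^ e2 * Y) := by rw [mul_pow]; ring
      _ ≤ S * (S ^ m2 * S ^ e2 * Y ^ d) := by gcongr
      _ = S ^ (m2 + e2 + 1) * Y ^ d := by ring
  -- the integer `Q`
  obtain ⟨d', rfl⟩ : ∃ d', d = d' + 1 := ⟨d - 1, by omega⟩
  set Q' : ℤ := q2 * (d' + 1).factorial * q ^ d' * a1 with hQ'
  have hQ'ne : Q' ≠ 0 := by
    rw [hQ']
    have : (0 : ℤ) < q2 := by exact_mod_cast hq2
    have h34 : (0 : ℤ) < (d' + 1).factorial := by exact_mod_cast Nat.factorial_pos _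
    have h35 : (0 : ℤ) < (q : ℤ) := by exact_mod_cast hqpos
    positivity
  have hqd : ((q : ℝ)) ^ d' ≤ S ^ ((m1 + 1) * (d' + 1)) := by
    calc ((q : ℝ)) ^ d' ≤ (S ^ (m1 + 1)) ^ d' := by gcongr
      _ = S ^ ((m1 + 1) * d') := by rw [← pow_mul]
      _ ≤ S ^ ((m1 + 1) * (d' + 1)) := hmono (Nat.mul_le_mul_left _ (by omega))
  have hcf : (q2 : ℝ) * (d' + 1).factorial * (q : ℝ) ^ d' ≤ S ^ (m2 + 2 + (m1 + 1) * (d' + 1)) := by
    calc (q2 : ℝ) * (d' + 1).factorial * (q : ℝ) ^ d' ≤ S ^ (m2 + 1) * S * S ^ ((m1 + 1) * (d' + 1)) := by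
          gcongr
      _ = S ^ (m2 + 2 + (m1 + 1) * (d' + 1)) := by ring
  have hmain : |(Q' : ℝ) * b - a2| ≤ S ^ K / X := by
    have h36 : (Q' : ℝ) * b - a2 = (q2 * (((d' + 1).factorial : ℝ) * (lam * b) * (q : ℝ) ^ (d' + 1)) - a2) -
        (q2 * (d' + 1).factorial * (q : ℝ) ^ d') * b * (q * lam - a1) := by
      rw [hQ']; push_cast; ring
    rw [h36]
    refine (abs_sub _ _).trans ?_
    have h37 : |(q2 * ((d' + 1).factorial : ℝ) * (q : ℝ) ^ d') * b * (q * lam - a1)| ≤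
        S ^ (m2 + 3 + (m1 + 1) * (d' + 1) + e1) / X := by
      rw [abs_mul, abs_mul, abs_of_nonneg (by positivity : (0:ℝ) ≤ q2 * (d' + 1).factorial * (q : ℝ) ^ d')]
      calc (q2 * ((d' + 1).factorial : ℝ) * (q : ℝ) ^ d') * |b| * |q * lam - a1| ≤
          S ^ (m2 + 2 + (m1 + 1) * (d' + 1)) * S * (S ^ e1 / X ^ (d' + 1 + 1)) := by gcongr
        _ = S ^ (m2 + 3 + (m1 + 1) * (d' + 1) + e1) / X ^ (d' + 1 + 1) := by
            rw [← mul_div_assoc]; congr 1; ring
        _ ≤ S ^ (m2 + 3 + (m1 + 1) * (d' + 1) + e1) / X := by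
            gcongr
            calc X = X ^ 1 := (pow_one X).symm
              _ ≤ X ^ (d' + 1 + 1) := pow_le_pow_right₀ hX1 (by omega)
    refine (add_le_add ha2' h37).trans ?_
    rw [← add_div]
    gcongr
    have h38 : S ^ (m2 + e2 + 1) ≤ S ^ (K - 1) := hmono (by omega)
    have h39 : S ^ (m2 + 3 + (m1 + 1) * (d' + 1) + e1) ≤ S ^ (K - 1) := by
      apply hmono
      have : 2 * (m1 + 1) * (d' + 1 + 1) = 2 * ((m1 + 1) * (d' + 1)) + 2 * (m1 + 1) := by ring
      omega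
    have h40 : S ^ K = S * S ^ (K - 1) := by
      rw [← pow_succ']; congr 1; omega
    rw [h40]
    calc S ^ (m2 + e2 + 1) + S ^ (m2 + 3 + (m1 + 1) * (d' + 1) + e1) ≤ S ^ (K - 1) + S ^ (K - 1) :=
          add_le_add h38 h39
      _ = 2 * S ^ (K - 1) := by ring
      _ ≤ S * S ^ (K - 1) := mul_le_mul_of_nonneg_right (by linarith) (hSpos _).le
  have hQabs : ((Q'.natAbs : ℕ) : ℝ) = |(Q' : ℝ)| := by
    rw [← Int.cast_abs, ← Int.natCast_natAbs]; simp
  have hQle : ((Q'.natAbs : ℕ) : ℝ) ≤ S ^ K := by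
    rw [hQabs]
    have h41 : |(a1 : ℝ)| ≤ S ^ (m1 + 3) := by
      have h42 : |(a1 : ℝ)| ≤ |q * lam| + |q * lam - a1| := by
        have : (a1 : ℝ) = q * lam - (q * lam - a1) := by ring
        calc |(a1 : ℝ)| = |q * lam - (q * lam - a1)| := by rw [← this]
          _ ≤ _ := abs_sub _ _
      have h43 : |q * lam| ≤ S ^ (m1 + 1) * S := by
        rw [abs_mul, abs_of_pos hq0]; gcongr
      have h44 : |q * lam - a1| ≤ 1 := by
        refine hε1.trans ?_
        rw [div_le_one (by positivity)]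
        calc S ^ e1 ≤ S ^ K := hmono (by omega)
          _ ≤ X := hSX
          _ = X ^ 1 := (pow_one X).symm
          _ ≤ X ^ (d' + 1 + 1) := pow_le_pow_right₀ hX1 (by omega)
      have h45 : S ^ (m1 + 3) = S ^ (m1 + 1) * S * S := by ring
      have h46 : 1 ≤ S ^ (m1 + 1) * S := by
        calc (1 : ℝ) = 1 * 1 := (one_mul 1).symm
          _ ≤ S ^ (m1 + 1) * S := mul_le_mul (one_le_pow₀ hS1) hS1 zero_le_one (hSpos _).le
      rw [h45]
      calc |(a1 : ℝ)| ≤ S ^ (m1 + 1) * S + 1 := h42.trans (add_le_add h43 h44)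
        _ ≤ S ^ (m1 + 1) * S + S ^ (m1 + 1) * S := by gcongr
        _ = (S ^ (m1 + 1) * S) * 2 := by ring
        _ ≤ (S ^ (m1 + 1) * S) * S :=
          mul_le_mul_of_nonneg_left (by linarith) (mul_pos (hSpos _) hS0).le
    rw [hQ']; push_cast
    rw [abs_mul, abs_of_nonneg (by positivity : (0:ℝ) ≤ q2 * (d' + 1).factorial * (q : ℝ) ^ d')]
    calc (q2 * ((d' + 1).factorial : ℝ) * (q : ℝ) ^ d') * |(a1 : ℝ)| ≤
        S ^ (m2 + 2 + (m1 + 1) * (d' + 1)) * S ^ (m1 + 3) := by gcongr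
      _ = S ^ (m2 + 2 + (m1 + 1) * (d' + 1) + (m1 + 3)) := by rw [← pow_add]
      _ ≤ S ^ K := by
        apply hmono
        have : 2 * (m1 + 1) * (d' + 1 + 1) = 2 * ((m1 + 1) * (d' + 1)) + 2 * (m1 + 1) := by ring
        omega
  rcases lt_or_gt_of_ne hQ'ne with hneg | hpos
  · refine ⟨Q'.natAbs, -a2, Int.natAbs_pos.mpr hQ'ne, hQle, ?_⟩
    have h47 : ((Q'.natAbs : ℕ) : ℝ) = -(Q' : ℝ) := by
      rw [hQabs, abs_of_neg (by exact_mod_cast hneg)]
    rw [h47]
    have h48 : -(Q' : ℝ) * b - ((-a2 : ℤ) : ℝ) = -((Q' : ℝ) * b - a2) := by push_cast; ring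
    rw [h48, abs_neg]; exact hmain
  · refine ⟨Q'.natAbs, a2, Int.natAbs_pos.mpr hQ'ne, hQle, ?_⟩
    have h47 : ((Q'.natAbs : ℕ) : ℝ) = (Q' : ℝ) := by
      rw [hQabs, abs_of_pos (by exact_mod_cast hpos)]
    rw [h47]; exact hmain

end Pool.Agent.Y935.WR
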