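import Mathlib
import Pool.Agent.Y935.WR.Stm
import Pool.Agent.Y935.WR.Weyl

/-!
# Almost all shifts have few coincidences, and are badly approximable enough
-/

set_option autoImplicit false

namespace Pool.Agent.Y935.WR

open Finset MeasureTheory Filter
open scoped ENNReal

lemma Jc_eq {ι : Type} (A : Finset ι) (a : ι → ℤ) :
    (Jc A a : ℝ≥0∞) = ∑ p ∈ A ×ˢ A, if a p.1 = a p.2 then 1 else 0 := by
  unfold Jc
  rw [Finset.card_filter]
  push_cast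
  rfl

lemma val_measurable {k : ℕ} (α : ℝ) (x : Fin k → ℕ) :
    Measurable fun μ : Fin k → ℝ => val α μ x := by
  unfold val
  refine Finset.measurable_sum _ fun i _ => ?_
  have h : Measurable fun μ : Fin k → ℝ => α * ((x i : ℝ) - μ i) ^ k := by fun_prop
  exact Int.measurable_floor.comp h

lemma Jc_measurable {k : ℕ} (α : ℝ) (A : Finset (Fin k → ℕ)) :
    Measurable fun μ : Fin k → ℝ => (Jc A (val α μ) : ℝ≥0∞) := by
  simp only [Jc_eq]
  refine Finset.measurable_sum _ fun p _ => ?_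
  exact Measurable.ite (measurableSet_eq_fun (val_measurable α _) (val_measurable α _))
    measurable_const measurable_const

lemma summ {ε : ℝ} (hε : 0 < ε) : Summable fun m : ℕ => ((m : ℝ) + 1) ^ 2 * ((2 : ℝ) ^ m) ^ (-ε) := by
  have h1 : ∀ m : ℕ, ((2 : ℝ) ^ m) ^ (-ε) = ((2 : ℝ) ^ (-ε)) ^ m := by
    intro m
    rw [← Real.rpow_natCast, ← Real.rpow_natCast, ← Real.rpow_mul (by norm_num),
      ← Real.rpow_mul (by norm_num), mul_comm]
  have h2 : ‖(2 : ℝ) ^ (-ε)‖ < 1 := by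
    rw [Real.norm_of_nonneg (by positivity)]
    exact Real.rpow_lt_one_of_one_lt_of_neg (by norm_num) (by linarith)
  have h3 := summable_pow_mul_geometric_of_norm_lt_one 2 h2
  have h4 := summable_pow_mul_geometric_of_norm_lt_one 1 h2
  have h5 := summable_pow_mul_geometric_of_norm_lt_one 0 h2
  have h6 := (h3.add (h4.mul_left 2)).add h5
  refine h6.congr fun m => ?_
  rw [h1]
  ring

/-- almost all shifts in a box -/
lemma bc_box (hM : S_MVS) {k : ℕ} (hk : 2 ≤ k) (R : ℕ) {ε : ℝ} (hε : 0 < ε) :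
    ∀ᵐ μ ∂((volume : Measure (Fin k → ℝ)).restrict
      (Set.univ.pi (fun _ : Fin k => Set.Icc (-(R : ℝ)) R))),
      ∀ᶠ m : ℕ in atTop, ∀ j ≤ m, (Jc (box k (2 ^ m)) (val ((2 : ℝ) ^ j) μ) : ℝ) ≤
        ((2 : ℝ) ^ m) ^ ((k : ℝ) + ε) := by
  obtain ⟨C, hC, h⟩ := hM k R hk
  set ρ := (volume : Measure (Fin k → ℝ)).restrict
    (Set.univ.pi (fun _ : Fin k => Set.Icc (-(R : ℝ)) R)) with hρ
  set s : ℕ → Set (Fin k → ℝ) := fun m => ⋃ j ∈ Finset.range (m + 1),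
    {μ | ENNReal.ofReal (((2 : ℝ) ^ m) ^ ((k : ℝ) + ε)) ≤ (Jc (box k (2 ^ m)) (val ((2 : ℝ) ^ j) μ) : ℝ≥0∞)}
    with hs
  have h1 : ∀ m : ℕ, 2 * R + 2 ≤ 2 ^ m → ρ (s m) ≤
      ENNReal.ofReal (C * (((m : ℝ) + 1) ^ 2 * ((2 : ℝ) ^ m) ^ (-ε))) := by
    intro m hm
    have hp0 : (0 : ℝ) < (2 : ℝ) ^ m := by positivity
    have h2 : ∀ j ∈ Finset.range (m + 1), ρ {μ | ENNReal.ofReal (((2 : ℝ) ^ m) ^ ((k : ℝ) + ε)) ≤
        (Jc (box k (2 ^ m)) (val ((2 : ℝ) ^ j) μ) : ℝ≥0∞)} ≤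
        ENNReal.ofReal (C * ((m : ℝ) + 1) * ((2 : ℝ) ^ m) ^ (-ε)) := by
      intro j _
      have h3 := meas_ge_le_lintegral_div (μ := ρ) (Jc_measurable ((2 : ℝ) ^ j) (box k (2 ^ m))).aemeasurable
        (ε := ENNReal.ofReal (((2 : ℝ) ^ m) ^ ((k : ℝ) + ε)))
        (by
          rw [Ne, ENNReal.ofReal_eq_zero, not_le]
          exact Real.rpow_pos_of_pos hp0 _) ENNReal.ofReal_ne_top
      refine h3.trans (ENNReal.div_le_of_le_mul ?_)
      have h4 := h ((2 : ℝ) ^ j) (2 ^ m) (one_le_pow₀ (by norm_num)) hm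
      refine h4.trans ?_
      rw [← ENNReal.ofReal_mul (by positivity)]
      refine ENNReal.ofReal_le_ofReal ?_
      have h5 : Real.log ((2 ^ m : ℕ) : ℝ) ≤ m := by
        push_cast
        rw [Real.log_pow]
        have := Real.log_two_lt_d9
        have h6 : (0 : ℝ) ≤ m := Nat.cast_nonneg m
        nlinarith
      have h7 : ((2 : ℝ) ^ m) ^ (-ε) * ((2 : ℝ) ^ m) ^ ((k : ℝ) + ε) = ((2 ^ m : ℕ) : ℝ) ^ k := by
        rw [← Real.rpow_add hp0]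
        push_cast
        rw [← Real.rpow_natCast ((2 : ℝ) ^ m) k]
        congr 1
        ring
      calc C * ((2 ^ m : ℕ) : ℝ) ^ k * (1 + Real.log ((2 ^ m : ℕ) : ℝ)) ≤
            C * ((2 ^ m : ℕ) : ℝ) ^ k * ((m : ℝ) + 1) := by
              have h8 : 1 + Real.log ((2 ^ m : ℕ) : ℝ) ≤ (m : ℝ) + 1 := by linarith
              exact mul_le_mul_of_nonneg_left h8 (by positivity)
        _ = C * ((m : ℝ) + 1) * ((2 : ℝ) ^ m) ^ (-ε) * ((2 : ℝ) ^ m) ^ ((k : ℝ) + ε) := by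
              rw [mul_assoc (C * ((m : ℝ) + 1)), h7]
              ring
    calc ρ (s m) ≤ ∑ j ∈ Finset.range (m + 1), ρ {μ | ENNReal.ofReal (((2 : ℝ) ^ m) ^ ((k : ℝ) + ε)) ≤
        (Jc (box k (2 ^ m)) (val ((2 : ℝ) ^ j) μ) : ℝ≥0∞)} := measure_biUnion_finset_le _ _
      _ ≤ ∑ _j ∈ Finset.range (m + 1), ENNReal.ofReal (C * ((m : ℝ) + 1) * ((2 : ℝ) ^ m) ^ (-ε)) :=
          Finset.sum_le_sum h2
      _ = ENNReal.ofReal (C * (((m : ℝ) + 1) ^ 2 * ((2 : ℝ) ^ m) ^ (-ε))) := by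
          rw [Finset.sum_const, card_range, nsmul_eq_mul, ← ENNReal.ofReal_natCast,
            ← ENNReal.ofReal_mul (by positivity)]
          congr 1
          push_cast
          ring
  obtain ⟨m₀, hm₀⟩ : ∃ m₀ : ℕ, ∀ m ≥ m₀, 2 * R + 2 ≤ 2 ^ m :=
    eventually_atTop.1 ((tendsto_pow_atTop_atTop_of_one_lt (r := (2 : ℕ)) (by norm_num)).eventually_ge_atTop _)
  have h8 : ∑' i, ρ (s (i + m₀)) ≠ ∞ := by
    have h9 : Summable fun i : ℕ => C * ((((i + m₀ : ℕ) : ℝ) + 1) ^ 2 * ((2 : ℝ) ^ (i + m₀)) ^ (-ε)) :=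
      ((summable_nat_add_iff m₀).2 (summ hε)).mul_left C
    refine ne_top_of_le_ne_top h9.tsum_ofReal_ne_top ?_
    exact ENNReal.tsum_le_tsum fun i => h1 (i + m₀) (hm₀ _ (by omega))
  have h10 := ae_eventually_notMem h8
  filter_upwards [h10] with μ hμ
  rw [eventually_atTop] at hμ ⊢
  obtain ⟨i₀, hi₀⟩ := hμ
  refine ⟨i₀ + m₀, fun m hm j hj => ?_⟩
  have h11 := hi₀ (m - m₀) (by omega)
  rw [Nat.sub_add_cancel (by omega)] at h11
  simp only [hs, Set.mem_iUnion, Set.mem_ofPred_eq, not_exists, not_le] at h11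
  have h12 := h11 j (by simp; omega)
  rw [← ENNReal.ofReal_natCast] at h12
  exact (ENNReal.ofReal_lt_ofReal_iff_of_nonneg (Nat.cast_nonneg _)).1 h12 |>.le

/-- almost all shifts -/
theorem bc (hM : S_MVS) {k : ℕ} (hk : 2 ≤ k) :
    ∀ᵐ μ : Fin k → ℝ, ∀ ε : ℝ, 0 < ε → ∀ᶠ m : ℕ in atTop, ∀ j ≤ m,
      (Jc (box k (2 ^ m)) (val ((2 : ℝ) ^ j) μ) : ℝ) ≤ ((2 : ℝ) ^ m) ^ ((k : ℝ) + ε) := by
  have h1 : ∀ᵐ μ : Fin k → ℝ, ∀ R e : ℕ, μ ∈ Set.univ.pi (fun _ : Fin k => Set.Icc (-(R : ℝ)) R) →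
      ∀ᶠ m : ℕ in atTop, ∀ j ≤ m, (Jc (box k (2 ^ m)) (val ((2 : ℝ) ^ j) μ) : ℝ) ≤
        ((2 : ℝ) ^ m) ^ ((k : ℝ) + 1 / ((e : ℝ) + 1)) := by
    rw [ae_all_iff]
    intro R
    rw [ae_all_iff]
    intro e
    have h2 := bc_box hM hk R (ε := 1 / ((e : ℝ) + 1)) (by positivity)
    rwa [ae_restrict_iff' (MeasurableSet.univ_pi fun _ => measurableSet_Icc)] at h2
  filter_upwards [h1] with μ hμ ε hε
  obtain ⟨R, hR⟩ : ∃ R : ℕ, ∀ i, |μ i| ≤ R := by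
    obtain ⟨R, hR⟩ := exists_nat_ge (∑ i, |μ i|)
    exact ⟨R, fun i => (Finset.single_le_sum (f := fun i => |μ i|) (fun _ _ => abs_nonneg _)
      (Finset.mem_univ i)).trans hR⟩
  obtain ⟨e, he⟩ := exists_nat_one_div_lt hε
  have h3 := hμ R e (fun i _ => abs_le.1 (hR i))
  filter_upwards [h3] with m hm j hj
  refine (hm j hj).trans ?_
  exact Real.rpow_le_rpow_of_exponent_le (one_le_pow₀ (by norm_num)) (by linarith)

lemma dio_of_not_liouvilleWith {x : ℝ} (hx : Irrational x) (h : ¬ LiouvilleWith 3 x) : Dio 2 x := by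
  have h1 : ∀ᶠ n : ℕ in atTop, ∀ m : ℤ, x ≠ m / n → 1 / (n : ℝ) ^ (3 : ℝ) ≤ |x - m / n| := by
    by_contra h2
    apply h
    refine ⟨1, ?_⟩
    rw [Filter.not_eventually] at h2
    refine h2.mono fun n hn => ?_
    push Not at hn
    obtain ⟨m, hm1, hm2⟩ := hn
    exact ⟨m, hm1, hm2⟩
  obtain ⟨N, hN⟩ := eventually_atTop.1 h1
  -- the small denominators
  have h3 : ∀ q : ℕ, 1 ≤ q → 0 < |(q : ℝ) * x - round ((q : ℝ) * x)| := by
    intro q hq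
    rw [abs_pos]
    have h4 : Irrational ((q : ℝ) * x) := by
      have := hx.natCast_mul (m := q) (by omega)
      exact this
    have h5 := h4.ne_int (round ((q : ℝ) * x))
    exact sub_ne_zero.2 h5
  obtain ⟨c₁, hc₁, h4⟩ : ∃ c₁ : ℝ, 0 < c₁ ∧ ∀ q : ℕ, 1 ≤ q → q < N + 1 →
      c₁ ≤ |(q : ℝ) * x - round ((q : ℝ) * x)| := by
    have hne : (Finset.Icc 1 (N + 1)).Nonempty := ⟨1, by simp⟩
    refine ⟨(Finset.Icc 1 (N + 1)).inf' hne fun q => |(q : ℝ) * x - round ((q : ℝ) * x)|, ?_, ?_⟩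
    · rw [Finset.lt_inf'_iff]
      intro q hq
      exact h3 q (Finset.mem_Icc.1 hq).1
    · intro q hq1 hq2
      exact Finset.inf'_le (fun q : ℕ => |(q : ℝ) * x - round ((q : ℝ) * x)|) (Finset.mem_Icc.2 ⟨hq1, by omega⟩)
  refine ⟨min c₁ 1, lt_min hc₁ one_pos, fun q a hq => ?_⟩
  have hq0 : (0 : ℝ) < q := by exact_mod_cast hq
  have hq1 : (1 : ℝ) ≤ q := by exact_mod_cast hq
  rcases lt_or_ge q (N + 1) with h5 | h5
  · calc min c₁ 1 * (q : ℝ) ^ (-(2 : ℝ)) ≤ c₁ * 1 := by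
          gcongr
          · exact min_le_left _ _
          · exact Real.rpow_le_one_of_one_le_of_nonpos hq1 (by norm_num)
      _ = c₁ := mul_one _
      _ ≤ |(q : ℝ) * x - round ((q : ℝ) * x)| := h4 q hq h5
      _ ≤ |(q : ℝ) * x - a| := round_le _ _
  · have h6 : x ≠ a / q := by
      intro h7
      exact hx ⟨(a : ℚ) / q, by rw [h7]; push_cast; ring⟩
    have h7 := hN q (by omega) a h6
    have h8 : |(q : ℝ) * x - a| = q * |x - a / q| := by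
      rw [← abs_of_pos hq0, ← abs_mul, abs_of_pos hq0]
      congr 1
      field_simp
    rw [h8]
    calc min c₁ 1 * (q : ℝ) ^ (-(2 : ℝ)) ≤ 1 * (q : ℝ) ^ (-(2 : ℝ)) := by
          gcongr
          exact min_le_right _ _
      _ = q * (1 / (q : ℝ) ^ (3 : ℝ)) := by
          rw [one_mul, one_div, ← Real.rpow_neg hq0.le]
          nth_rewrite 2 [← Real.rpow_one (q : ℝ)]
          rw [← Real.rpow_add hq0]
          norm_num
      _ ≤ q * |x - a / q| := by gcongr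

lemma ae_dio : ∀ᵐ x : ℝ, Dio 2 x := by
  have h1 : ∀ᵐ x : ℝ, ¬ LiouvilleWith 3 x := by
    have h2 := volume_iUnion_setOfPred_liouvilleWith
    rw [ae_iff]
    refine measure_mono_null ?_ h2
    intro x hx
    simp only [not_not] at hx
    exact Set.mem_iUnion₂.2 ⟨3, by norm_num, hx⟩
  have h3 : ∀ᵐ x : ℝ, Irrational x := by
    rw [ae_iff]
    refine (Set.countable_range ((↑) : ℚ → ℝ)).measure_zero volume |> measure_mono_null ?_
    intro x hx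
    by_contra h
    exact hx h
  filter_upwards [h1, h3] with x h4 h5
  exact dio_of_not_liouvilleWith h5 h4

lemma dio_mul {b : ℝ} (h : Dio 2 b) (k : ℕ) (hk : 1 ≤ k) : Dio 2 ((k : ℝ) * b) := by
  obtain ⟨c, hc, h⟩ := h
  have hk0 : (0 : ℝ) < k := by exact_mod_cast hk
  refine ⟨c * (k : ℝ) ^ (-(2 : ℝ)), by positivity, fun q a hq => ?_⟩
  have h1 := h (q * k) a (Nat.mul_pos hq hk)
  push_cast at h1
  rw [Real.mul_rpow (by positivity) (by positivity)] at h1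
  calc c * (k : ℝ) ^ (-(2 : ℝ)) * (q : ℝ) ^ (-(2 : ℝ)) = c * ((q : ℝ) ^ (-(2 : ℝ)) * (k : ℝ) ^ (-(2 : ℝ))) := by
        ring
    _ ≤ |(q : ℝ) * k * b - a| := h1
    _ = |(q : ℝ) * (k * b) - a| := by rw [mul_assoc]

end Pool.Agent.Y935.WR
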