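import Mathlib
import Pool.Agent.Helper602.MK.J5b

/-!
# Exponential sums over integer parts
-/

set_option autoImplicit false

namespace Pool.Agent.Y935.WR

open Finset MeasureTheory
open Pool.Agent.Helper602.MK (ee)
open Pool.Agent.Helper602.MK.N_J5b (ee_add ee_zero norm_ee ee_int ee_add_int)

/-- the factor on a period -/
noncomputable def FF (θ : ℝ) (u : ℝ) : ℂ := ((Real.sin (Real.pi * u) ^ 2 : ℝ) : ℂ) * ee (-(θ * u))

lemma continuous_ee : Continuous ee := by
  unfold ee; fun_prop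

lemma continuous_FF (θ : ℝ) : Continuous (FF θ) := by
  unfold FF
  have := continuous_ee
  fun_prop

lemma norm_FF_le (θ u : ℝ) : ‖FF θ u‖ ≤ 1 := by
  unfold FF
  rw [norm_mul, norm_ee, mul_one, Complex.norm_real, Real.norm_eq_abs, abs_of_nonneg (sq_nonneg _)]
  exact Real.sin_sq_le_one _

lemma sin_sq_ee (u : ℝ) : ((Real.sin (Real.pi * u) ^ 2 : ℝ) : ℂ) =
    1 / 2 - (1 / 4) * ee u - (1 / 4) * ee (-u) := by
  have h1 : Real.sin (Real.pi * u) ^ 2 = 1 / 2 - Real.cos (2 * (Real.pi * u)) / 2 := by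
    rw [Real.cos_two_mul, ← Real.sin_sq_add_cos_sq (Real.pi * u)]
    have := Real.sin_sq_add_cos_sq (Real.pi * u)
    nlinarith
  have h2 : ee u + ee (-u) = 2 * ((Real.cos (2 * (Real.pi * u)) : ℝ) : ℂ) := by
    unfold ee
    rw [Complex.ofReal_cos, Complex.cos]
    push_cast
    have e1 : 2 * (Real.pi : ℂ) * u * Complex.I = 2 * (Real.pi * u) * Complex.I := by ring
    have e2 : 2 * (Real.pi : ℂ) * -u * Complex.I = -(2 * (Real.pi * u)) * Complex.I := by ring
    rw [e1, e2]; ring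
  rw [h1]
  push_cast
  have h3 : ((Real.cos (2 * (Real.pi * u)) : ℝ) : ℂ) = (ee u + ee (-u)) / 2 := by rw [h2]; ring
  push_cast at h3
  rw [h3]; ring

lemma integral_ee (s : ℝ) (hs : s ≠ 0) : ∫ x in (0:ℝ)..1, ee (s * x) =
    (ee s - 1) / (2 * Real.pi * s * Complex.I) := by
  have hc : (2 * Real.pi * s * Complex.I : ℂ) ≠ 0 := by
    have h1 : (Real.pi : ℂ) ≠ 0 := by exact_mod_cast Real.pi_ne_zero
    have h2 : (s : ℂ) ≠ 0 := by exact_mod_cast hs
    simp [h1, h2, Complex.I_ne_zero]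
  have h := integral_exp_mul_complex (a := 0) (b := 1) hc
  have e : (fun x : ℝ => ee (s * x)) = fun x : ℝ => Complex.exp (2 * Real.pi * s * Complex.I * x) := by
    funext x; unfold ee; push_cast; ring_nf
  rw [e, h]
  congr 1
  unfold ee
  simp

lemma coef (θ : ℝ) (n : ℤ) : fourierCoeff (AddCircle.liftIco (1:ℝ) 0 (FF θ)) n =
    ∫ x in (0:ℝ)..1, ee (-(n * x)) * FF θ x := by
  rw [fourierCoeff_liftIco_eq, fourierCoeffOn_eq_integral]
  simp only [zero_add, sub_zero, one_div, inv_one, one_smul]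
  refine intervalIntegral.integral_congr fun x _ => ?_
  simp only [smul_eq_mul]
  congr 1
  rw [fourier_coe_apply]
  unfold ee
  push_cast
  congr 1
  ring

lemma coef_le_one (θ : ℝ) (n : ℤ) :
    ‖fourierCoeff (AddCircle.liftIco (1:ℝ) 0 (FF θ)) n‖ ≤ 1 := by
  rw [coef]
  have h := intervalIntegral.norm_integral_le_of_norm_le_const (a := 0) (b := 1) (C := 1)
    (f := fun x : ℝ => ee (-(n * x)) * FF θ x) (fun x _ => by
      rw [norm_mul, norm_ee, one_mul]; exact norm_FF_le _ _)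
  simpa using h

lemma coef_eq (θ : ℝ) (n : ℤ) (h0 : θ + n ≠ 0) (h1 : θ + n - 1 ≠ 0) (h2 : θ + n + 1 ≠ 0) :
    fourierCoeff (AddCircle.liftIco (1:ℝ) 0 (FF θ)) n =
    (ee (-(θ + n)) - 1) / (2 * Real.pi * Complex.I) *
      (1 / (2 * ((θ + n) * (θ + n - 1) * (θ + n + 1)) : ℝ)) := by
  rw [coef]
  set t : ℝ := θ + n with ht
  have e1 : ∀ x : ℝ, ee (-(n * x)) * FF θ x = (1 / 2) * ee (-t * x) - (1 / 4) * ee (-(t - 1) * x) -
      (1 / 4) * ee (-(t + 1) * x) := by
    intro x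
    unfold FF
    rw [sin_sq_ee]
    have a1 : ee (-t * x) = ee (-(n * x)) * ee (-(θ * x)) := by
      rw [← ee_add]; congr 1; rw [ht]; ring
    have a2 : ee (-(t - 1) * x) = ee (-(n * x)) * ee (-(θ * x)) * ee x := by
      rw [← ee_add, ← ee_add]; congr 1; rw [ht]; ring
    have a3 : ee (-(t + 1) * x) = ee (-(n * x)) * ee (-(θ * x)) * ee (-x) := by
      rw [← ee_add, ← ee_add]; congr 1; rw [ht]; ring
    rw [a1, a2, a3]; ring
  have hi : ∀ s : ℝ, IntervalIntegrable (fun x : ℝ => ee (s * x)) volume 0 1 := fun s =>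
    (continuous_ee.comp (by fun_prop)).intervalIntegrable _ _
  have e2 : ∫ x in (0:ℝ)..1, ee (-(n * x)) * FF θ x =
      (1 / 2) * (∫ x in (0:ℝ)..1, ee (-t * x)) - (1 / 4) * (∫ x in (0:ℝ)..1, ee (-(t - 1) * x)) -
      (1 / 4) * ∫ x in (0:ℝ)..1, ee (-(t + 1) * x) := by
    rw [intervalIntegral.integral_congr (g := fun x : ℝ => (1 / 2) * ee (-t * x) -
      (1 / 4) * ee (-(t - 1) * x) - (1 / 4) * ee (-(t + 1) * x)) (fun x _ => e1 x)]
    rw [intervalIntegral.integral_sub, intervalIntegral.integral_sub,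
      intervalIntegral.integral_const_mul, intervalIntegral.integral_const_mul,
      intervalIntegral.integral_const_mul]
    · exact (hi _).const_mul _
    · exact (hi _).const_mul _
    · exact ((hi _).const_mul _).sub ((hi _).const_mul _)
    · exact (hi _).const_mul _
  rw [e2, integral_ee _ (neg_ne_zero.mpr h0), integral_ee _ (neg_ne_zero.mpr h1),
    integral_ee _ (neg_ne_zero.mpr h2)]
  have b1 : ee (-(t - 1)) = ee (-t) := by
    have := ee_add_int (-t) 1
    rw [← this]; congr 1; push_cast; ring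
  have b2 : ee (-(t + 1)) = ee (-t) := by
    have := ee_add_int (-(t + 1)) 1
    rw [← this]; congr 1; push_cast; ring
  rw [b1, b2]
  have c0 : (t : ℂ) ≠ 0 := by exact_mod_cast h0
  have c1 : (t : ℂ) - 1 ≠ 0 := by
    have : ((t - 1 : ℝ) : ℂ) ≠ 0 := by exact_mod_cast h1
    push_cast at this; exact this
  have c2 : (t : ℂ) + 1 ≠ 0 := by
    have : ((t + 1 : ℝ) : ℂ) ≠ 0 := by exact_mod_cast h2
    push_cast at this; exact this
  have cpi : (Real.pi : ℂ) ≠ 0 := by exact_mod_cast Real.pi_ne_zero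
  have cI := Complex.I_ne_zero
  push_cast
  have c1' : -((t : ℂ) - 1) ≠ 0 := neg_ne_zero.mpr c1
  have c2' : -((t : ℂ) + 1) ≠ 0 := neg_ne_zero.mpr c2
  field_simp
  ring

/-- the majorant of the coefficients -/
noncomputable def wt (n : ℤ) : ℝ := if n.natAbs ≤ 1 then 1 else 1 / (n : ℝ) ^ 2

lemma wt_nonneg (n : ℤ) : 0 ≤ wt n := by
  unfold wt; split_ifs <;> positivity

lemma summable_wt : Summable wt := by
  have h1 : Summable (fun n : ℤ => 1 / (n : ℝ) ^ 2) := Real.summable_one_div_int_pow.mpr (by norm_num)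
  have h2 : Summable (fun n : ℤ => if n.natAbs ≤ 1 then (1 : ℝ) else 0) := by
    apply summable_of_hasFiniteSupport
    refine Set.Finite.subset (Set.finite_Icc (-1 : ℤ) 1) ?_
    intro n hn
    by_contra hc
    apply hn
    simp only [Set.mem_Icc, not_and_or, not_le] at hc
    show (if n.natAbs ≤ 1 then (1 : ℝ) else 0) = 0
    rw [if_neg (by omega)]
  refine Summable.of_nonneg_of_le wt_nonneg (fun n => ?_) (h1.add h2)
  unfold wt
  split_ifs
  · have : 0 ≤ 1 / (n : ℝ) ^ 2 := by positivity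
    linarith
  · simp

lemma coef_bound (θ : ℝ) (hθ : |θ| ≤ 1 / 2) (n : ℤ) (hn : 2 ≤ n.natAbs) :
    ‖fourierCoeff (AddCircle.liftIco (1:ℝ) 0 (FF θ)) n‖ ≤ 1 / |(n : ℝ)| ^ 3 := by
  have hn' : (2 : ℝ) ≤ |(n : ℝ)| := by
    have : (2 : ℤ) ≤ |n| := by rw [Int.abs_eq_natAbs]; exact_mod_cast hn
    rw [← Int.cast_abs]; exact_mod_cast this
  set m : ℝ := |(n : ℝ)| with hm
  have h1 : m - 1 / 2 ≤ |θ + n| := by
    have := abs_sub_abs_le_abs_sub (n : ℝ) (-θ)
    rw [abs_neg, sub_neg_eq_add, add_comm (n : ℝ) θ] at this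
    linarith
  have h2 : m - 3 / 2 ≤ |θ + n - 1| := by
    have h3 := abs_sub_abs_le_abs_sub (θ + n) 1
    rw [abs_one] at h3; linarith
  have h3 : m - 3 / 2 ≤ |θ + n + 1| := by
    have h3 := abs_sub_abs_le_abs_sub (θ + n) (-1)
    rw [abs_neg, abs_one, sub_neg_eq_add] at h3; linarith
  have n0 : θ + n ≠ 0 := by intro h; rw [h, abs_zero] at h1; linarith
  have n1 : θ + n - 1 ≠ 0 := by intro h; rw [h, abs_zero] at h2; linarith
  have n2 : θ + n + 1 ≠ 0 := by intro h; rw [h, abs_zero] at h3; linarith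
  rw [coef_eq θ n n0 n1 n2, norm_mul, norm_div]
  have hpi := Real.pi_gt_three
  have a1 : ‖ee (-(θ + n)) - 1‖ ≤ 2 := by
    refine (norm_sub_le _ _).trans ?_
    rw [norm_ee, norm_one]; norm_num
  have a2 : ‖(2 * Real.pi * Complex.I : ℂ)‖ = 2 * Real.pi := by
    rw [norm_mul, norm_mul, Complex.norm_I, Complex.norm_real, Real.norm_eq_abs,
      abs_of_pos Real.pi_pos]
    simp
  set t : ℝ := θ + n with ht
  have a4 : (t - 1) * (t + 1) = t ^ 2 - 1 := by ring
  have a3 : (m - 1 / 2) * ((m - 1 / 2) ^ 2 - 1) ≤ |t * (t - 1) * (t + 1)| := by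
    rw [mul_assoc, a4, abs_mul]
    have b1 : (m - 1 / 2) ^ 2 ≤ t ^ 2 := by
      rw [← sq_abs t]; exact pow_le_pow_left₀ (by linarith) h1 2
    have b2 : (m - 1 / 2) ^ 2 - 1 ≤ |t ^ 2 - 1| := (by linarith : _ ≤ t ^ 2 - 1).trans (le_abs_self _)
    have b3 : 0 ≤ (m - 1 / 2) ^ 2 - 1 := by nlinarith
    exact mul_le_mul h1 b2 b3 (abs_nonneg _)
  have a5 : m ^ 3 / 6 ≤ (m - 1 / 2) * ((m - 1 / 2) ^ 2 - 1) := by nlinarith [mul_nonneg (by linarith : 0 ≤ m - 2) (by linarith : 0 ≤ m)]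
  have a6 : ‖((1 / (2 * (t * (t - 1) * (t + 1))) : ℝ) : ℂ)‖ ≤ 3 / m ^ 3 := by
    rw [Complex.norm_real, Real.norm_eq_abs, abs_div, abs_one, abs_mul, abs_of_pos (by norm_num : (0:ℝ) < 2)]
    rw [div_le_div_iff₀ (by positivity) (by positivity)]
    linarith
  rw [a2]
  push_cast at a6 ⊢
  calc ‖ee (-t) - 1‖ / (2 * Real.pi) * _ ≤ 2 / (2 * 3) * (3 / m ^ 3) := by
        gcongr
    _ = 1 / m ^ 3 := by ring

/-- exponential sums over integer parts, with a weight that vanishes when the fractional part is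
close to an integer -/
theorem four : ∃ C : ℝ, 0 < C ∧ ∀ (θ : ℝ), |θ| ≤ 1 / 2 → ∀ (ι : Type) (s : Finset ι) (u : ι → ℝ)
    (H : ℕ) (M : ℝ), 1 ≤ H → 0 ≤ M →
    (∀ h : ℤ, |h| ≤ H → ‖∑ x ∈ s, ee ((θ + h) * u x)‖ ≤ M) →
    ‖∑ x ∈ s, ((Real.sin (Real.pi * u x) ^ 2 : ℝ) : ℂ) * ee (θ * (⌊u x⌋ : ℝ))‖ ≤
      C * (M + s.card / H) := by
  refine ⟨∑' n, wt n, ?_, ?_⟩
  · have h0 : wt 0 = 1 := by simp [wt]
    have := summable_wt.le_tsum 0 (fun n _ => wt_nonneg n)
    rw [h0] at this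
    linarith
  intro θ hθ ι s u H M hH hM hS
  have hH0 : (0 : ℝ) < H := by exact_mod_cast hH
  -- the continuous function
  have hcont : Continuous (AddCircle.liftIco (1:ℝ) 0 (FF θ)) := by
    apply AddCircle.liftIco_zero_continuous
    · unfold FF; simp
    · exact (continuous_FF θ).continuousOn
  set f : C(AddCircle (1:ℝ), ℂ) := ⟨_, hcont⟩ with hf
  have hbd : ∀ n : ℤ, ‖fourierCoeff f n‖ ≤ wt n := by
    intro n
    by_cases hn : n.natAbs ≤ 1
    · unfold wt; rw [if_pos hn]; exact coef_le_one θ n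
    · unfold wt; rw [if_neg hn]
      refine (coef_bound θ hθ n (by omega)).trans ?_
      have hn' : (1 : ℝ) ≤ |(n : ℝ)| := by
        have : (1 : ℤ) ≤ |n| := by rw [Int.abs_eq_natAbs]; omega
        rw [← Int.cast_abs]; exact_mod_cast this
      rw [← sq_abs (n : ℝ)]
      apply div_le_div_of_nonneg_left (by norm_num) (by positivity)
      exact pow_le_pow_right₀ hn' (by norm_num)
  have hsum : Summable (fourierCoeff f) := Summable.of_norm_bounded summable_wt hbd
  have hpt : ∀ x ∈ s, HasSum (fun n : ℤ => fourierCoeff f n * ee ((θ + n) * u x))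
      (((Real.sin (Real.pi * u x) ^ 2 : ℝ) : ℂ) * ee (θ * (⌊u x⌋ : ℝ))) := by
    intro x _
    have h1 := (has_pointwise_sum_fourier_series_of_summable hsum ((u x : ℝ) : AddCircle (1:ℝ))).mul_right
      (ee (θ * u x))
    have e1 : (fun n : ℤ => fourierCoeff f n * ee ((θ + n) * u x)) =
        fun i : ℤ => fourierCoeff f i • fourier i ((u x : ℝ) : AddCircle (1:ℝ)) * ee (θ * u x) := by
      funext n
      rw [fourier_coe_apply, smul_eq_mul, mul_assoc]
      congr 1
      have : Complex.exp (2 * Real.pi * Complex.I * n * (u x) / (1:ℝ)) = ee (n * u x) := by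
        unfold ee; push_cast; congr 1; ring
      rw [this, ← ee_add]; congr 1; ring
    have h3 : ((u x : ℝ) : AddCircle (1:ℝ)) = ((Int.fract (u x) : ℝ) : AddCircle (1:ℝ)) := by
      have : Int.fract (u x) = u x - (⌊u x⌋ : ℤ) • (1:ℝ) := by
        rw [Int.fract]; simp
      rw [this, AddCircle.coe_sub, AddCircle.coe_zsmul, AddCircle.coe_period, smul_zero, sub_zero]
    have h2 : f ((u x : ℝ) : AddCircle (1:ℝ)) = FF θ (Int.fract (u x)) := by
      rw [h3]
      have hmem : Int.fract (u x) ∈ Set.Ico (0:ℝ) (0 + 1) := by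
        rw [zero_add]; exact ⟨Int.fract_nonneg _, Int.fract_lt_one _⟩
      exact AddCircle.liftIco_coe_apply (f := FF θ) hmem
    have e2 : ((Real.sin (Real.pi * u x) ^ 2 : ℝ) : ℂ) * ee (θ * (⌊u x⌋ : ℝ)) =
        f ((u x : ℝ) : AddCircle (1:ℝ)) * ee (θ * u x) := by
      rw [h2]
      unfold FF
      have h4 : Real.sin (Real.pi * Int.fract (u x)) ^ 2 = Real.sin (Real.pi * u x) ^ 2 := by
        have : Real.pi * Int.fract (u x) = Real.pi * u x - ⌊u x⌋ * Real.pi := by
          rw [Int.fract]; ring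
        rw [this, Real.sin_sub_int_mul_pi, mul_pow]
        have : (((-1 : ℝ)) ^ ⌊u x⌋) ^ 2 = 1 := by
          rw [← zpow_natCast, ← zpow_mul, mul_comm, zpow_mul]; norm_num
        rw [this, one_mul]
      rw [h4, mul_assoc, ← ee_add]
      congr 2
      rw [Int.fract]; ring
    rw [e1, e2]
    exact h1
  have htot := hasSum_sum hpt
  refine htot.norm_le_of_bounded ((summable_wt.hasSum).mul_right (M + s.card / H)) ?_
  intro n
  rw [← mul_sum, norm_mul]
  by_cases hn : |n| ≤ H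
  · calc ‖fourierCoeff f n‖ * ‖∑ x ∈ s, ee ((θ + n) * u x)‖ ≤ wt n * M := by
          gcongr
          · exact wt_nonneg n
          · exact hbd n
          · exact hS n hn
      _ ≤ wt n * (M + s.card / H) := by
          have := wt_nonneg n
          gcongr
          have : (0:ℝ) ≤ s.card / H := by positivity
          linarith
  · push Not at hn
    have hn2 : (H : ℝ) < |(n : ℝ)| := by
      rw [← Int.cast_abs]; exact_mod_cast hn
    have hS' : ‖∑ x ∈ s, ee ((θ + n) * u x)‖ ≤ s.card := by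
      refine (norm_sum_le _ _).trans ?_
      simp [norm_ee]
    have hnabs : 2 ≤ n.natAbs := by
      rw [Int.abs_eq_natAbs] at hn
      omega
    have h5 := coef_bound θ hθ n hnabs
    have hnpos : (0 : ℝ) < |(n : ℝ)| := lt_trans hH0 hn2
    have h6 : 1 / |(n : ℝ)| ^ 3 ≤ wt n / H := by
      unfold wt
      rw [if_neg (by omega), ← sq_abs (n : ℝ), div_div, div_le_div_iff₀ (by positivity) (by positivity)]
      nlinarith [sq_nonneg |(n:ℝ)|, mul_le_mul_of_nonneg_left hn2.le (sq_nonneg |(n:ℝ)|)]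
    calc ‖fourierCoeff f n‖ * ‖∑ x ∈ s, ee ((θ + n) * u x)‖ ≤ (wt n / H) * s.card := by
          refine mul_le_mul (h5.trans h6) hS' (norm_nonneg _) ?_
          have := wt_nonneg n; positivity
      _ = wt n * (s.card / H) := by ring
      _ ≤ wt n * (M + s.card / H) := by
          have := wt_nonneg n
          gcongr
          linarith

end Pool.Agent.Y935.WR
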