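import Mathlib
import Pool.Agent.Y935.WR.Weyl

/-!
# The bound on the minor arcs
-/

set_option autoImplicit false

namespace Pool.Agent.Y935.WR

open Finset Polynomial Filter
open Pool.Agent.Helper602.MK (ee)

/-- power saving for the exponential sums of a monic polynomial with Diophantine second
coefficient, outside of a neighbourhood of zero -/
theorem minor (d : ℕ) (hd : 1 ≤ d) (A : ℝ) (hA : 0 ≤ A) (δ : ℝ) (hδ : 0 < δ) :
    ∃ σ : ℝ, 0 < σ ∧ ∀ (g : ℝ[X]), g.natDegree = d + 1 → g.Monic → Dio A (g.coeff d) →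
      ∀ᶠ X : ℝ in atTop, ∀ (x₀ N : ℕ) (lam : ℝ), (x₀ : ℝ) + N ≤ X →
      X ^ (δ - (d + 1)) ≤ |lam| → |lam| ≤ X ^ σ →
      ‖∑ n ∈ range N, ee (lam * g.eval ((x₀ : ℝ) + n))‖ ≤ X ^ (1 - σ) := by
  obtain ⟨K, hK, hcore'⟩ := core d hd
  have hK0 : (0 : ℝ) < K := by exact_mod_cast hK
  set σ : ℝ := min (δ / (2 * K)) (1 / (2 * K * (A + 1))) with hσ
  have hσ0 : 0 < σ := lt_min (by positivity) (by positivity)
  have hσ1 : σ * K ≤ δ / 2 := by
    have : σ ≤ δ / (2 * K) := min_le_left _ _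
    calc σ * K ≤ δ / (2 * K) * K := by gcongr
      _ = δ / 2 := by field_simp
  have hσ2 : σ * K * (A + 1) ≤ 1 / 2 := by
    have : σ ≤ 1 / (2 * K * (A + 1)) := min_le_right _ _
    calc σ * K * (A + 1) ≤ 1 / (2 * K * (A + 1)) * K * (A + 1) := by gcongr
      _ = 1 / 2 := by field_simp
  have hσ3 : σ * K ≤ 1 := by
    have : σ * K ≤ σ * K * (A + 1) := by
      apply le_mul_of_one_le_right (by positivity) (by linarith)
    linarith
  refine ⟨σ, hσ0, fun g hg hm hb => ?_⟩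
  obtain ⟨S₀, hS₀, hcore⟩ := hcore' g hg hm
  obtain ⟨c, hc, hbb⟩ := hb
  have ev1 : ∀ᶠ X : ℝ in atTop, S₀ ≤ X ^ σ := (tendsto_rpow_atTop hσ0).eventually_ge_atTop S₀
  have ev2 : ∀ᶠ X : ℝ in atTop, 1 / c < X ^ (1 / 2 : ℝ) :=
    (tendsto_rpow_atTop (by norm_num)).eventually_gt_atTop _
  filter_upwards [ev1, ev2, eventually_gt_atTop (1 : ℝ)] with X h1 h2 hX1
  intro x₀ N lam hxN hl1 hl2
  have hX0 : 0 < X := by linarith
  by_contra hcon
  push Not at hcon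
  have hSK : (X ^ σ) ^ K = X ^ (σ * K) := by rw [Real.rpow_mul hX0.le, Real.rpow_natCast]
  have h3 : (X ^ σ) ^ K ≤ X := by
    rw [hSK]
    calc X ^ (σ * K) ≤ X ^ (1 : ℝ) := Real.rpow_le_rpow_of_exponent_le hX1.le hσ3
      _ = X := Real.rpow_one X
  have h4 : X < X ^ σ * ‖∑ n ∈ range N, ee (lam * g.eval ((x₀ : ℝ) + n))‖ := by
    calc X = X ^ σ * X ^ (1 - σ) := by rw [← Real.rpow_add hX0]; simp
      _ < _ := mul_lt_mul_of_pos_left hcon (Real.rpow_pos_of_pos hX0 _)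
  rcases hcore X (X ^ σ) h1 h3 x₀ N lam hxN hl2 h4 with h5 | ⟨Q, a, hQ1, hQS, hQ⟩
  · have h6 : (X ^ σ) ^ K / X ^ (d + 1) = X ^ (σ * K - (d + 1)) := by
      rw [hSK, Real.rpow_sub hX0, ← Real.rpow_natCast X (d + 1)]; push_cast; ring_nf
    rw [h6] at h5
    have h7 : X ^ (σ * K - (d + 1)) < X ^ (δ - (d + 1)) := by
      apply Real.rpow_lt_rpow_of_exponent_lt hX1
      linarith
    linarith
  · have hQ0 : (0 : ℝ) < Q := by exact_mod_cast hQ1
    have h8 := hbb Q a hQ1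
    have h9 : (X ^ (σ * K)) ^ (-A) ≤ (Q : ℝ) ^ (-A) := by
      rw [hSK] at hQS
      exact Real.rpow_le_rpow_of_nonpos hQ0 hQS (by linarith)
    rw [← Real.rpow_mul hX0.le] at h9
    have h10 : c * X ^ (σ * K * -A) ≤ X ^ (σ * K - 1) := by
      have h11 : (X ^ σ) ^ K / X = X ^ (σ * K - 1) := by
        rw [hSK, Real.rpow_sub hX0, Real.rpow_one]
      rw [← h11]
      calc c * X ^ (σ * K * -A) ≤ c * (Q : ℝ) ^ (-A) := by gcongr
        _ ≤ _ := h8.trans hQ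
    have h12 : c ≤ X ^ (-(1 / 2) : ℝ) := by
      have h13 : X ^ (σ * K - 1) = X ^ (σ * K * (A + 1) - 1) * X ^ (σ * K * -A) := by
        rw [← Real.rpow_add hX0]; congr 1; ring
      rw [h13] at h10
      have h14 : c ≤ X ^ (σ * K * (A + 1) - 1) :=
        le_of_mul_le_mul_right h10 (Real.rpow_pos_of_pos hX0 _)
      refine h14.trans (Real.rpow_le_rpow_of_exponent_le hX1.le (by linarith))
    rw [div_lt_iff₀ hc] at h2
    have h15 : X ^ (1 / 2 : ℝ) * c ≤ 1 := by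
      calc X ^ (1 / 2 : ℝ) * c ≤ X ^ (1 / 2 : ℝ) * X ^ (-(1 / 2) : ℝ) := by gcongr
        _ = 1 := by rw [← Real.rpow_add hX0]; norm_num
    linarith

end Pool.Agent.Y935.WR
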