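import Mathlib
import Pool.Agent.Y935.WR.Minor
import Pool.Agent.Y935.WR.Four
import Pool.Agent.Y935.WR.Stm

/-!
# The generating function of the last variable times one minus the Fejer kernel
-/

set_option autoImplicit false

namespace Pool.Agent.Y935.WR

open Finset Polynomial Filter
open Pool.Agent.Helper602.MK (ee)
open Pool.Agent.Helper602.MK.N_J5b (ee_add ee_zero norm_ee ee_int ee_add_int)

lemma norm_mean_le (M : ℕ) (hM : 1 ≤ M) (θ : ℝ) :
    ‖(1 / (M : ℂ)) * ∑ i ∈ range M, ee (i * θ)‖ ≤ 1 := by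
  have hM0 : (0 : ℝ) < M := by exact_mod_cast hM
  rw [norm_mul, norm_div, norm_one, Complex.norm_natCast]
  have h1 : ‖∑ i ∈ range M, ee (i * θ)‖ ≤ M := by
    refine (norm_sum_le _ _).trans ?_
    simp [norm_ee]
  rw [one_div, inv_mul_le_iff₀ hM0, mul_one]
  exact h1

lemma Vt_nonneg (M : ℕ) (hM : 1 ≤ M) (θ : ℝ) : 0 ≤ Vt M θ := by
  unfold Vt
  have h1 := norm_mean_le M hM θ
  have h2 := norm_nonneg ((1 / (M : ℂ)) * ∑ i ∈ range M, ee (i * θ))
  nlinarith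

lemma Vt_le_one (M : ℕ) (θ : ℝ) : Vt M θ ≤ 1 := by
  unfold Vt
  have := sq_nonneg ‖(1 / (M : ℂ)) * ∑ i ∈ range M, ee (i * θ)‖
  linarith

lemma Vt_le (M : ℕ) (hM : 1 ≤ M) (θ : ℝ) : Vt M θ ≤ 4 * Real.pi * M * |θ| := by
  have hM0 : (0 : ℝ) < M := by exact_mod_cast hM
  have hM0' : (M : ℂ) ≠ 0 := by exact_mod_cast hM0.ne'
  have hpi := Real.pi_pos
  set m : ℂ := (1 / (M : ℂ)) * ∑ i ∈ range M, ee (i * θ) with hm
  have h1 : ‖m‖ ≤ 1 := norm_mean_le M hM θ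
  have h2 : ‖1 - m‖ ≤ 2 * Real.pi * M * |θ| := by
    have h3 : 1 - m = (1 / (M : ℂ)) * ∑ i ∈ range M, (1 - ee (i * θ)) := by
      rw [sum_sub_distrib, mul_sub, ← hm]
      simp [hM0']
    rw [h3, norm_mul, norm_div, norm_one, Complex.norm_natCast]
    have h4 : ∀ i ∈ range M, ‖1 - ee ((i : ℝ) * θ)‖ ≤ 2 * Real.pi * M * |θ| := by
      intro i hi
      have h5 := norm_ee_sub 0 ((i : ℝ) * θ)
      rw [ee_zero, zero_sub, abs_neg, abs_mul, Nat.abs_cast] at h5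
      refine h5.trans ?_
      have : (i : ℝ) ≤ M := by exact_mod_cast (mem_range.mp hi).le
      calc 2 * Real.pi * ((i : ℝ) * |θ|) ≤ 2 * Real.pi * ((M : ℝ) * |θ|) := by gcongr
        _ = _ := by ring
    have h6 : ‖∑ i ∈ range M, (1 - ee ((i : ℝ) * θ))‖ ≤ M * (2 * Real.pi * M * |θ|) := by
      refine (norm_sum_le _ _).trans ((sum_le_sum h4).trans ?_)
      simp
    calc 1 / (M : ℝ) * ‖∑ i ∈ range M, (1 - ee ((i : ℝ) * θ))‖ ≤
        1 / (M : ℝ) * (M * (2 * Real.pi * M * |θ|)) := by gcongr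
      _ = 2 * Real.pi * M * |θ| := by field_simp
  have h7 : 1 - ‖m‖ ≤ ‖1 - m‖ := by
    have := norm_sub_norm_le (1 : ℂ) m
    rwa [norm_one] at this
  have h8 : Vt M θ = (1 - ‖m‖) * (1 + ‖m‖) := by
    unfold Vt; rw [← hm]; ring
  rw [h8]
  have h9 := norm_nonneg m
  nlinarith

lemma dio_neg {A b : ℝ} (h : Dio A b) : Dio A (-b) := by
  obtain ⟨c, hc, h⟩ := h
  refine ⟨c, hc, fun q a hq => ?_⟩
  have := h q (-a) hq
  push_cast at this
  have e : (q : ℝ) * -b - a = -(q * b - -a) := by ring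
  rw [e, abs_neg]; exact this

/-- the bound on the minor arcs for shifted powers -/
lemma minor_shift (d : ℕ) (hd : 1 ≤ d) (A : ℝ) (hA : 0 ≤ A) (δ : ℝ) (hδ : 0 < δ) :
    ∃ σ : ℝ, 0 < σ ∧ ∀ μ : ℝ, Dio A (((d + 1 : ℕ) : ℝ) * μ) →
      ∀ᶠ X : ℝ in atTop, ∀ (x₀ N : ℕ) (lam : ℝ), (x₀ : ℝ) + N ≤ X →
      X ^ (δ - (d + 1)) ≤ |lam| → |lam| ≤ X ^ σ →
      ‖∑ n ∈ range N, ee (lam * ((x₀ : ℝ) + n - μ) ^ (d + 1))‖ ≤ X ^ (1 - σ) := by
  obtain ⟨σ, hσ, h⟩ := minor d hd A hA δ hδ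
  refine ⟨σ, hσ, fun μ hμ => ?_⟩
  have h1 : ((Polynomial.X - C μ : ℝ[X]) ^ (d + 1)).natDegree = d + 1 := by
    rw [(monic_X_sub_C μ).natDegree_pow, natDegree_X_sub_C, mul_one]
  have h2 : ((Polynomial.X - C μ : ℝ[X]) ^ (d + 1)).coeff d = -(((d + 1 : ℕ) : ℝ) * μ) := by
    have e : (Polynomial.X - C μ : ℝ[X]) = Polynomial.X + C (-μ) := by rw [C_neg]; ring
    rw [e, coeff_X_add_C_pow]
    have : d + 1 - d = 1 := by omega
    rw [this, Nat.choose_succ_self_right]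
    push_cast; ring
  have h3 := h _ h1 ((monic_X_sub_C μ).pow _) (by rw [h2]; exact dio_neg hμ)
  filter_upwards [h3] with X hX
  intro x₀ N lam a1 a2 a3
  have := hX x₀ N lam a1 a2 a3
  simpa [eval_pow, eval_sub, eval_X, eval_C] using this

/-- the bounds for the last variable, uniform in the scaling factor -/
theorem supb (d : ℕ) (hd : 1 ≤ d) (A : ℝ) (hA : 0 ≤ A) :
    ∃ κ σ : ℝ, 0 < κ ∧ κ < 1 ∧ 0 < σ ∧ ∀ (T : ℕ), 2 ≤ T → ∀ μ : ℝ,
      Dio A (((d + 1 : ℕ) : ℝ) * μ) → ∀ᶠ P : ℕ in atTop, ∀ α : ℝ, 1 ≤ α → α ≤ (P : ℝ) ^ σ →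
      (∀ x₀ N : ℕ, x₀ + N ≤ T * P →
        ‖∑ n ∈ range N, ee (α * ((x₀ : ℝ) + n - μ) ^ (d + 1))‖ ≤ (P : ℝ) ^ (1 - κ - σ)) ∧
      (∀ M : ℕ, 1 ≤ M → (M : ℝ) ≤ 2 * α * (P : ℝ) ^ ((d + 1 : ℝ) - κ) → ∀ θ : ℝ, |θ| ≤ 1 / 2 →
        ‖∑ z ∈ Ioc P (T * P), ((Real.sin (Real.pi * (α * ((z : ℝ) - μ) ^ (d + 1))) ^ 2 : ℝ) : ℂ) *
          ee (θ * (⌊α * ((z : ℝ) - μ) ^ (d + 1)⌋ : ℝ))‖ * Vt M θ ≤ (P : ℝ) ^ (1 - σ)) := by
  obtain ⟨C0, hC0, hfour⟩ := four
  obtain ⟨σ₁, hσ₁, hmin1⟩ := minor_shift d hd A hA (1 / 2) (by norm_num)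
  obtain ⟨κ, hκdef⟩ : ∃ κ, κ = min (σ₁ / 2) (1 / 2) := ⟨_, rfl⟩
  have hκ0 : 0 < κ := by rw [hκdef]; exact lt_min (by positivity) (by norm_num)
  have hκ1 : κ ≤ σ₁ / 2 := by rw [hκdef]; exact min_le_left _ _
  have hκ2 : κ ≤ 1 / 2 := by rw [hκdef]; exact min_le_right _ _
  obtain ⟨σ₂, hσ₂, hmin2⟩ := minor_shift d hd A hA (κ / 2) (by positivity)
  obtain ⟨σ, hσdef⟩ : ∃ σ, σ = min (min (σ₁ / 4) (σ₂ / 8)) (κ / 4) := ⟨_, rfl⟩
  have hσ0 : 0 < σ := by
    rw [hσdef]; exact lt_min (lt_min (by positivity) (by positivity)) (by positivity)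
  have hσa : σ ≤ σ₁ / 4 := by rw [hσdef]; exact (min_le_left _ _).trans (min_le_left _ _)
  have hσb : σ ≤ σ₂ / 8 := by rw [hσdef]; exact (min_le_left _ _).trans (min_le_right _ _)
  have hσc : σ ≤ κ / 4 := by rw [hσdef]; exact min_le_right _ _
  refine ⟨κ, σ, hκ0, by linarith, hσ0, fun T hT μ hμ => ?_⟩
  have hT0 : (0 : ℝ) < T := by exact_mod_cast (by omega : 0 < T)
  have hT1 : (1 : ℝ) ≤ T := by exact_mod_cast (by omega : 1 ≤ T)
  have hd0 : (1 : ℝ) ≤ d := by exact_mod_cast hd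
  have hpi := Real.pi_pos
  have tP : Tendsto (fun P : ℕ => (P : ℝ)) atTop atTop := tendsto_natCast_atTop_atTop
  have t1 : Tendsto (fun P : ℕ => (T : ℝ) * (P : ℝ)) atTop atTop := tP.const_mul_atTop hT0
  have t2 : Tendsto (fun P : ℕ => 2 * ((T : ℝ) * (P : ℝ))) atTop atTop :=
    t1.const_mul_atTop (by norm_num)
  have ge : ∀ (e c : ℝ), 0 < e → ∀ᶠ P : ℕ in atTop, c ≤ (P : ℝ) ^ e := fun e c he =>
    ((tendsto_rpow_atTop he).comp tP).eventually_ge_atTop c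
  filter_upwards [t1.eventually (hmin1 μ hμ), t2.eventually (hmin2 μ hμ),
    ge (σ₁ / 4) T (by positivity), ge (σ₂ / 8) (3 * T * C0) (by positivity),
    ge (κ / 4) (8 * Real.pi * T) (by positivity), ge (σ₂ / 2) 3 (by positivity),
    eventually_ge_atTop 1] with P E1 E2 E3 E4 E5 E6 hP1
  intro α hα1 hα2
  set p : ℝ := (P : ℝ) with hp
  have hp1 : (1 : ℝ) ≤ p := by rw [hp]; exact_mod_cast hP1
  have hp0 : 0 < p := by linarith
  have hα0 : 0 < α := by linarith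
  have rp : ∀ x : ℝ, 0 < p ^ x := fun x => Real.rpow_pos_of_pos hp0 x
  have rmono : ∀ {x y : ℝ}, x ≤ y → p ^ x ≤ p ^ y := fun h =>
    Real.rpow_le_rpow_of_exponent_le hp1 h
  constructor
  · intro x₀ N hxN
    have h1 : (x₀ : ℝ) + N ≤ T * p := by rw [hp]; exact_mod_cast hxN
    have hTp : 1 ≤ (T : ℝ) * p := one_le_mul_of_one_le_of_one_le hT1 hp1
    have h2 : ((T : ℝ) * p) ^ ((1 / 2 : ℝ) - (d + 1)) ≤ |α| := by
      rw [abs_of_pos hα0]
      refine le_trans ?_ hα1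
      apply Real.rpow_le_one_of_one_le_of_nonpos hTp
      linarith
    have h3 : |α| ≤ ((T : ℝ) * p) ^ σ₁ := by
      rw [abs_of_pos hα0]
      calc α ≤ p ^ σ := hα2
        _ ≤ p ^ σ₁ := rmono (by linarith)
        _ ≤ ((T : ℝ) * p) ^ σ₁ := by
          apply Real.rpow_le_rpow hp0.le _ hσ₁.le
          exact le_mul_of_one_le_left hp0.le hT1
    refine (E1 x₀ N α h1 h2 h3).trans ?_
    rw [Real.mul_rpow hT0.le hp0.le]
    have h4 : (T : ℝ) ^ (1 - σ₁) ≤ T := by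
      calc (T : ℝ) ^ (1 - σ₁) ≤ (T : ℝ) ^ (1 : ℝ) :=
            Real.rpow_le_rpow_of_exponent_le hT1 (by linarith)
        _ = T := Real.rpow_one _
    calc (T : ℝ) ^ (1 - σ₁) * p ^ (1 - σ₁) ≤ p ^ (σ₁ / 4) * p ^ (1 - σ₁) := by
          have := rp (1 - σ₁)
          gcongr
          exact h4.trans E3
      _ = p ^ (σ₁ / 4 + (1 - σ₁)) := (Real.rpow_add hp0 _ _).symm
      _ ≤ p ^ (1 - κ - σ) := rmono (by linarith)
  · intro M hM1 hM θ hθ
    have hM0 : (0 : ℝ) < M := by exact_mod_cast hM1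
    have hV0 := Vt_nonneg M hM1 θ
    have hV1 := Vt_le_one M θ
    set X : ℝ := 2 * ((T : ℝ) * p) with hX
    have hXp : 2 * p ≤ X := by rw [hX]; nlinarith
    have hX2 : 2 ≤ X := by linarith
    have hX0 : 0 < X := by linarith
    set u : ℕ → ℝ := fun z => α * ((z : ℝ) - μ) ^ (d + 1) with hu
    have hcard : ((Ioc P (T * P)).card : ℝ) ≤ T * p := by
      rw [Nat.card_Ioc, hp, ← Nat.cast_mul]
      exact_mod_cast Nat.sub_le _ _
    by_cases hmaj : |θ| * α < X ^ (κ / 2 - (d + 1))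
    · -- major arc
      have h1 : ‖∑ z ∈ Ioc P (T * P), ((Real.sin (Real.pi * u z) ^ 2 : ℝ) : ℂ) *
          ee (θ * (⌊u z⌋ : ℝ))‖ ≤ T * p := by
        refine (norm_sum_le _ _).trans ?_
        refine le_trans (sum_le_sum (g := fun _ => (1 : ℝ)) fun z _ => ?_) ?_
        · rw [norm_mul, norm_ee, mul_one, Complex.norm_real, Real.norm_eq_abs,
            abs_of_nonneg (sq_nonneg _)]
          exact Real.sin_sq_le_one _
        · simpa using hcard
      have h2 : Vt M θ ≤ 8 * Real.pi * p ^ (-(κ / 2)) := by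
        refine (Vt_le M hM1 θ).trans ?_
        have h3 : (M : ℝ) * |θ| ≤ 2 * p ^ (-(κ / 2)) := by
          calc (M : ℝ) * |θ| ≤ (2 * α * p ^ ((d + 1 : ℝ) - κ)) * |θ| := by gcongr
            _ = 2 * p ^ ((d + 1 : ℝ) - κ) * (|θ| * α) := by ring
            _ ≤ 2 * p ^ ((d + 1 : ℝ) - κ) * X ^ (κ / 2 - (d + 1)) := by
              have := rp ((d + 1 : ℝ) - κ)
              gcongr
            _ ≤ 2 * p ^ ((d + 1 : ℝ) - κ) * p ^ (κ / 2 - (d + 1)) := by
              have := rp ((d + 1 : ℝ) - κ)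
              refine mul_le_mul_of_nonneg_left ?_ (by positivity)
              exact Real.rpow_le_rpow_of_nonpos hp0 (by linarith) (by linarith)
            _ = 2 * p ^ (-(κ / 2)) := by
              rw [mul_assoc, ← Real.rpow_add hp0]; congr 2; ring
        calc 4 * Real.pi * M * |θ| = 4 * Real.pi * (M * |θ|) := by ring
          _ ≤ 4 * Real.pi * (2 * p ^ (-(κ / 2))) := by gcongr
          _ = _ := by ring
      calc ‖∑ z ∈ Ioc P (T * P), ((Real.sin (Real.pi * u z) ^ 2 : ℝ) : ℂ) *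
          ee (θ * (⌊u z⌋ : ℝ))‖ * Vt M θ ≤ (T * p) * (8 * Real.pi * p ^ (-(κ / 2))) :=
            mul_le_mul h1 h2 hV0 (by positivity)
        _ = (8 * Real.pi * T) * (p ^ (1 : ℝ) * p ^ (-(κ / 2))) := by rw [Real.rpow_one]; ring
        _ ≤ p ^ (κ / 4) * (p ^ (1 : ℝ) * p ^ (-(κ / 2))) := by
          have := rp 1
          have := rp (-(κ / 2))
          gcongr
        _ = p ^ (κ / 4 + (1 + -(κ / 2))) := by rw [← Real.rpow_add hp0, ← Real.rpow_add hp0]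
        _ ≤ p ^ (1 - σ) := rmono (by linarith)
    · -- minor arc
      push Not at hmaj
      set H : ℕ := ⌈p ^ (σ₂ / 4)⌉₊ with hH
      have hHge : p ^ (σ₂ / 4) ≤ H := Nat.le_ceil _
      have hp4 : 1 ≤ p ^ (σ₂ / 4) := Real.one_le_rpow hp1 (by positivity)
      have hH1 : 1 ≤ H := by
        have : (1 : ℝ) ≤ H := hp4.trans hHge
        exact_mod_cast this
      have hH0 : (0 : ℝ) < H := by exact_mod_cast hH1
      have hHle : (H : ℝ) ≤ 2 * p ^ (σ₂ / 4) := by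
        have := Nat.ceil_lt_add_one (rp (σ₂ / 4)).le
        rw [← hH] at this
        linarith
      have hsup : ∀ h : ℤ, |h| ≤ H → ‖∑ z ∈ Ioc P (T * P), ee ((θ + h) * u z)‖ ≤ X ^ (1 - σ₂) := by
        intro h hh
        have hh' : |(h : ℝ)| ≤ H := by rw [← Int.cast_abs]; exact_mod_cast hh
        have e1 : ∑ z ∈ Ioc P (T * P), ee ((θ + h) * u z) =
            ∑ n ∈ range (T * P - P), ee ((θ + h) * α * (((P + 1 : ℕ) : ℝ) + n - μ) ^ (d + 1)) := by
          have : Ioc P (T * P) = Ico (P + 1) (T * P + 1) := by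
            ext z; simp only [mem_Ioc, mem_Ico]; omega
          rw [this, sum_Ico_eq_sum_range]
          have h2 : T * P + 1 - (P + 1) = T * P - P := by omega
          rw [h2]
          refine sum_congr rfl fun n _ => ?_
          simp only [hu]
          push_cast
          congr 1; ring
        rw [e1]
        apply E2
        · have h3 : P + 1 + (T * P - P) = T * P + 1 := by
            have : P ≤ T * P := Nat.le_mul_of_pos_left P (by omega)
            omega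
          have h4 : ((P + 1 : ℕ) : ℝ) + ((T * P - P : ℕ) : ℝ) = T * p + 1 := by
            rw [← Nat.cast_add, h3, hp]; push_cast; ring
          rw [h4]
          have : 1 ≤ (T : ℝ) * p := one_le_mul_of_one_le_of_one_le hT1 hp1
          linarith
        · rw [abs_mul, abs_of_pos hα0]
          rcases eq_or_ne h 0 with h0 | h0
          · rw [h0]; simpa using hmaj
          · have h5 : (1 : ℝ) ≤ |(h : ℝ)| := by
              rw [← Int.cast_abs]; exact_mod_cast Int.one_le_abs h0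
            have h6 : 1 / 2 ≤ |θ + h| := by
              have := abs_sub_abs_le_abs_sub (h : ℝ) (-θ)
              rw [abs_neg, sub_neg_eq_add, add_comm (h : ℝ) θ] at this
              linarith
            have h7 : X ^ (κ / 2 - (d + 1)) ≤ 1 / 2 := by
              calc X ^ (κ / 2 - (d + 1)) ≤ X ^ (-1 : ℝ) :=
                    Real.rpow_le_rpow_of_exponent_le (by linarith) (by linarith)
                _ = X⁻¹ := Real.rpow_neg_one X
                _ ≤ 1 / 2 := by rw [one_div]; exact inv_anti₀ (by norm_num) hX2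
            calc X ^ (κ / 2 - (d + 1)) ≤ 1 / 2 := h7
              _ ≤ |θ + h| * 1 := by linarith
              _ ≤ |θ + h| * α := by gcongr
        · rw [abs_mul, abs_of_pos hα0]
          have h8 : |θ + h| ≤ 3 * p ^ (σ₂ / 4) := by
            have := abs_add_le θ (h : ℝ)
            linarith
          calc |θ + h| * α ≤ (3 * p ^ (σ₂ / 4)) * p ^ σ := by gcongr
            _ ≤ (p ^ (σ₂ / 2) * p ^ (σ₂ / 4)) * p ^ σ := by
              have := rp (σ₂ / 4)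
              have := rp σ
              gcongr
            _ = p ^ (σ₂ / 2 + σ₂ / 4 + σ) := by rw [Real.rpow_add hp0, Real.rpow_add hp0]
            _ ≤ p ^ σ₂ := rmono (by linarith)
            _ ≤ X ^ σ₂ := Real.rpow_le_rpow hp0.le (by linarith) hσ₂.le
      have h9 := hfour θ hθ ℕ (Ioc P (T * P)) u H (X ^ (1 - σ₂)) hH1
        (Real.rpow_nonneg hX0.le _) hsup
      have h10 : X ^ (1 - σ₂) ≤ 2 * T * p ^ (1 - σ₂) := by
        have : X = (2 * T) * p := by rw [hX]; ring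
        rw [this, Real.mul_rpow (by positivity) hp0.le]
        have h11 : (2 * (T : ℝ)) ^ (1 - σ₂) ≤ 2 * T := by
          calc (2 * (T : ℝ)) ^ (1 - σ₂) ≤ (2 * (T : ℝ)) ^ (1 : ℝ) :=
                Real.rpow_le_rpow_of_exponent_le (by linarith) (by linarith)
            _ = 2 * T := Real.rpow_one _
        have := rp (1 - σ₂)
        gcongr
      have h12 : ((Ioc P (T * P)).card : ℝ) / H ≤ T * p ^ (1 - σ₂ / 4) := by
        rw [div_le_iff₀ hH0]
        calc ((Ioc P (T * P)).card : ℝ) ≤ T * p := hcard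
          _ = T * p ^ (1 - σ₂ / 4) * p ^ (σ₂ / 4) := by
            rw [mul_assoc, ← Real.rpow_add hp0]; norm_num
          _ ≤ T * p ^ (1 - σ₂ / 4) * H := by
            have := rp (1 - σ₂ / 4)
            gcongr
      calc ‖∑ z ∈ Ioc P (T * P), ((Real.sin (Real.pi * u z) ^ 2 : ℝ) : ℂ) *
          ee (θ * (⌊u z⌋ : ℝ))‖ * Vt M θ ≤
            (C0 * (X ^ (1 - σ₂) + (Ioc P (T * P)).card / H)) * 1 :=
            mul_le_mul h9 hV1 hV0 (by positivity)
        _ ≤ (C0 * (2 * T * p ^ (1 - σ₂) + T * p ^ (1 - σ₂ / 4))) * 1 := by gcongr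
        _ ≤ (C0 * (2 * T * p ^ (1 - σ₂ / 4) + T * p ^ (1 - σ₂ / 4))) * 1 := by
          gcongr
          linarith
        _ = (3 * T * C0) * p ^ (1 - σ₂ / 4) := by ring
        _ ≤ p ^ (σ₂ / 8) * p ^ (1 - σ₂ / 4) := by
          have := rp (1 - σ₂ / 4)
          gcongr
        _ = p ^ (σ₂ / 8 + (1 - σ₂ / 4)) := (Real.rpow_add hp0 _ _).symm
        _ ≤ p ^ (1 - σ) := rmono (by linarith)

end Pool.Agent.Y935.WR
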