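import Mathlib
import Pool.Agent.Y935.WR.BC
import Pool.Agent.Y935.WR.Sup

/-!
# Assembly: the number of solutions of the integer equation
-/

set_option autoImplicit false

namespace Pool.Agent.Y935.WR

open Finset MeasureTheory Filter
open Pool.Agent.Helper602.MK (ee)

/-- few coincidences -/
def Good {k : ℕ} (μ : Fin k → ℝ) : Prop := ∀ ε : ℝ, 0 < ε → ∀ᶠ m : ℕ in atTop, ∀ j ≤ m,
  (Jc (box k (2 ^ m)) (val ((2 : ℝ) ^ j) μ) : ℝ) ≤ ((2 : ℝ) ^ m) ^ ((k : ℝ) + ε)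

lemma box_card (k P : ℕ) : (box k P).card = P ^ k := by
  unfold box
  rw [Fintype.card_piFinset]
  simp [two_mul]

lemma val_bounds {k : ℕ} {α : ℝ} (hα : 1 ≤ α) {μ : Fin k → ℝ} {P : ℕ} (hP : ∀ i, |μ i| ≤ P)
    {x : Fin k → ℕ} (hx : x ∈ box k P) :
    (0 : ℝ) ≤ val α μ x ∧ (val α μ x : ℝ) ≤ k * 3 ^ k * (α * (P : ℝ) ^ k) := by
  have hx' : ∀ i, (P : ℝ) < x i ∧ (x i : ℝ) ≤ 2 * P := by
    intro i
    have := Fintype.mem_piFinset.1 hx i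
    rw [Finset.mem_Ioc] at this
    exact ⟨by exact_mod_cast this.1, by exact_mod_cast this.2⟩
  unfold val
  push_cast
  constructor
  · refine Finset.sum_nonneg fun i _ => ?_
    have h1 : 0 ≤ (x i : ℝ) - μ i := by
      have := (abs_le.1 (hP i)).2
      linarith [(hx' i).1]
    have h2 : 0 ≤ α * ((x i : ℝ) - μ i) ^ k := by positivity
    exact_mod_cast Int.floor_nonneg.2 h2
  · calc ∑ i, ((⌊α * ((x i : ℝ) - μ i) ^ k⌋ : ℤ) : ℝ) ≤ ∑ _i : Fin k, 3 ^ k * (α * (P : ℝ) ^ k) := by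
          refine Finset.sum_le_sum fun i _ => ?_
          refine (Int.floor_le _).trans ?_
          have h1 : 0 ≤ (x i : ℝ) - μ i := by
            have := (abs_le.1 (hP i)).2
            linarith [(hx' i).1]
          have h2 : (x i : ℝ) - μ i ≤ 3 * P := by
            have := (abs_le.1 (hP i)).1
            linarith [(hx' i).2]
          calc α * ((x i : ℝ) - μ i) ^ k ≤ α * (3 * P) ^ k := by gcongr
            _ = 3 ^ k * (α * (P : ℝ) ^ k) := by rw [mul_pow]; ring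
      _ = k * 3 ^ k * (α * (P : ℝ) ^ k) := by
          rw [Finset.sum_const, Finset.card_univ, Fintype.card_fin, nsmul_eq_mul]
          ring

/-- the solutions -/
noncomputable def Sol {k : ℕ} (μ ν : Fin k → ℝ) (ξ α : ℝ) (P T : ℕ) (n : ℤ) :
    Finset ((Fin k → ℕ) × (Fin k → ℕ) × ℕ) :=
  (box k P ×ˢ box k P ×ˢ Ioc P (T * P)).filter fun t =>
    val α μ t.1 + val α ν t.2.1 + ⌊α * ((t.2.2 : ℝ) - ξ) ^ k⌋ = n

lemma Sol_card {k : ℕ} (μ ν : Fin k → ℝ) (ξ α : ℝ) (P T : ℕ) (n : ℤ) :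
    ((Sol μ ν ξ α P T n).card : ℝ) = ∑ x ∈ box k P, ∑ y ∈ box k P, ∑ z ∈ Ioc P (T * P),
      (if val α μ x + val α ν y + ⌊α * ((z : ℝ) - ξ) ^ k⌋ = n then 1 else 0) := by
  unfold Sol
  rw [Finset.card_filter]
  push_cast
  rw [Finset.sum_product]
  refine Finset.sum_congr rfl fun x _ => ?_
  rw [Finset.sum_product]

/-- the circle method -/
theorem count (hC : S_CIRC) (hL : S_LOW) (d : ℕ) (hd : 1 ≤ d) :
    ∃ σ' : ℝ, 0 < σ' ∧ σ' ≤ 1 ∧ ∀ (μ ν : Fin (d + 1) → ℝ) (ξ : ℝ), Good μ → Good ν →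
      Dio 2 (((d + 1 : ℕ) : ℝ) * ξ) → ∀ T : ℕ, 2 ≤ T → ∃ c : ℝ, 0 < c ∧ ∀ᶠ m : ℕ in atTop,
      ∀ j : ℕ, (2 : ℝ) ^ j ≤ ((2 : ℝ) ^ m) ^ σ' → ∀ n : ℤ,
        (2 * ((d + 1 : ℕ) : ℝ) * 3 ^ (d + 1) + 2) * ((2 : ℝ) ^ j * ((2 : ℝ) ^ m) ^ (d + 1)) ≤ n →
        (n : ℝ) ≤ (2 : ℝ) ^ j * (T * (2 : ℝ) ^ m) ^ (d + 1) / 2 →
        c * (((2 : ℝ) ^ m) ^ (d + 2) / (2 : ℝ) ^ j) ≤ (Sol μ ν ξ ((2 : ℝ) ^ j) (2 ^ m) T n).card := by
  obtain ⟨κ, σ, hκ, hκ1, hσ, hsup⟩ := supb d hd 2 (by norm_num)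
  refine ⟨min (σ / 4) 1, lt_min (by positivity) one_pos, min_le_right _ _, ?_⟩
  intro μ ν ξ hμ hν hξ T hT
  obtain ⟨c₁, hc₁, hlow⟩ := hL (d + 1) ξ κ T (by omega) hκ hκ1 hT
  have hsup1 := hsup T hT ξ hξ
  have hpow : Tendsto (fun m : ℕ => 2 ^ m) atTop (atTop : Filter ℕ) :=
    tendsto_pow_atTop_atTop_of_one_lt (by norm_num)
  have hpowR : Tendsto (fun m : ℕ => (2 : ℝ) ^ m) atTop atTop :=
    tendsto_pow_atTop_atTop_of_one_lt (by norm_num)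
  refine ⟨c₁ / 2, by positivity, ?_⟩
  have e1 : ∀ᶠ m : ℕ in atTop, (2 : ℝ) ≤ ((2 : ℝ) ^ m) ^ κ :=
    ((tendsto_rpow_atTop hκ).comp hpowR).eventually_ge_atTop 2
  have e2 : ∀ᶠ m : ℕ in atTop, 2 / c₁ ≤ ((2 : ℝ) ^ m) ^ (σ / 2) :=
    ((tendsto_rpow_atTop (by positivity)).comp hpowR).eventually_ge_atTop _
  have e3 : ∀ᶠ m : ℕ in atTop, (∑ i, |μ i|) + ∑ i, |ν i| ≤ (2 : ℝ) ^ m :=
    hpowR.eventually_ge_atTop _
  filter_upwards [hpow.eventually hlow, hpow.eventually hsup1, hμ (σ / 4) (by positivity),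
    hν (σ / 4) (by positivity), e1, e2, e3] with m hlow1 hsup2 hJμ hJν e1 e2 e3
  intro j hj n hn1 hn2
  obtain ⟨P, hP⟩ : ∃ P : ℕ, P = 2 ^ m := ⟨_, rfl⟩
  obtain ⟨α, hα⟩ : ∃ α : ℝ, α = (2 : ℝ) ^ j := ⟨_, rfl⟩
  have hpP : (2 : ℝ) ^ m = (P : ℝ) := by rw [hP]; push_cast; rfl
  rw [← hP] at hlow1 hsup2 hJμ hJν
  rw [hpP] at hJμ hJν e1 e2 e3 hj hn1 hn2
  rw [← hα] at hj hn1 hn2
  have hα1 : 1 ≤ α := by rw [hα]; exact one_le_pow₀ (by norm_num)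
  have hα0 : 0 < α := by linarith
  have hp1 : (1 : ℝ) ≤ P := by
    rw [← hpP]; exact one_le_pow₀ (by norm_num)
  have hp0 : (0 : ℝ) < P := by linarith
  have hjm : j ≤ m := by
    have h1 : (2 : ℝ) ^ j ≤ (2 : ℝ) ^ m := by
      rw [← hα, hpP]
      calc α ≤ (P : ℝ) ^ (min (σ / 4) 1) := hj
        _ ≤ (P : ℝ) ^ (1 : ℝ) := Real.rpow_le_rpow_of_exponent_le hp1 (min_le_right _ _)
        _ = P := Real.rpow_one _
    exact (pow_le_pow_iff_right₀ (by norm_num : (1 : ℝ) < 2)).1 h1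
  have hασ : α ≤ (P : ℝ) ^ (σ / 4) :=
    hj.trans (Real.rpow_le_rpow_of_exponent_le hp1 (min_le_left _ _))
  have hασ' : α ≤ (P : ℝ) ^ σ :=
    hασ.trans (Real.rpow_le_rpow_of_exponent_le hp1 (by linarith))
  obtain ⟨hs1, hs2⟩ := hsup2 α hα1 hασ'
  -- the window
  have hk : ((d + 1 : ℕ) : ℝ) - κ = (d + 1 : ℝ) - κ := by push_cast; ring
  obtain ⟨M, hMdef⟩ : ∃ M : ℕ, M = ⌈α * (P : ℝ) ^ (((d + 1 : ℕ) : ℝ) - κ)⌉₊ := ⟨_, rfl⟩
  have hM1 : α * (P : ℝ) ^ (((d + 1 : ℕ) : ℝ) - κ) ≤ M := by rw [hMdef]; exact Nat.le_ceil _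
  have hb1 : 1 ≤ (P : ℝ) ^ (((d + 1 : ℕ) : ℝ) - κ) := by
    apply Real.one_le_rpow hp1
    push_cast
    have : (0 : ℝ) ≤ d := Nat.cast_nonneg d
    linarith
  have hb2 : 1 ≤ α * (P : ℝ) ^ (((d + 1 : ℕ) : ℝ) - κ) := by
    calc (1 : ℝ) = 1 * 1 := by norm_num
      _ ≤ α * (P : ℝ) ^ (((d + 1 : ℕ) : ℝ) - κ) := by gcongr
  have hM2 : (M : ℝ) ≤ 2 * α * (P : ℝ) ^ (((d + 1 : ℕ) : ℝ) - κ) := by
    have := Nat.ceil_lt_add_one (a := α * (P : ℝ) ^ (((d + 1 : ℕ) : ℝ) - κ)) (by linarith)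
    rw [← hMdef] at this
    linarith
  have hM3 : 1 ≤ M := by
    have : (1 : ℝ) ≤ M := by linarith
    exact_mod_cast this
  have hM4 : (M : ℝ) ≤ α * (P : ℝ) ^ (d + 1) := by
    calc (M : ℝ) ≤ 2 * α * (P : ℝ) ^ (((d + 1 : ℕ) : ℝ) - κ) := hM2
      _ ≤ (P : ℝ) ^ κ * α * (P : ℝ) ^ (((d + 1 : ℕ) : ℝ) - κ) := by gcongr
      _ = α * ((P : ℝ) ^ κ * (P : ℝ) ^ (((d + 1 : ℕ) : ℝ) - κ)) := by ring
      _ = α * (P : ℝ) ^ (d + 1) := by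
          rw [← Real.rpow_add hp0, add_sub_cancel, Real.rpow_natCast]
  -- the average
  have hcσ : (P : ℝ) ^ (-(σ / 2)) ≤ c₁ / 2 := by
    rw [Real.rpow_neg hp0.le]
    have h1 : (0 : ℝ) < 2 / c₁ := by positivity
    calc ((P : ℝ) ^ (σ / 2))⁻¹ ≤ (2 / c₁)⁻¹ := inv_anti₀ h1 e2
      _ = c₁ / 2 := by rw [inv_div]
  have hE : (P : ℝ) ^ (1 - κ - σ) ≤ c₁ * (M / (α * (P : ℝ) ^ (d + 1 - 1))) := by
    have h1 : (P : ℝ) ^ (1 - κ) ≤ M / (α * (P : ℝ) ^ (d + 1 - 1)) := by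
      rw [le_div_iff₀ (by positivity)]
      refine le_trans (le_of_eq ?_) hM1
      rw [Nat.add_sub_cancel, ← Real.rpow_natCast (P : ℝ) d]
      calc (P : ℝ) ^ (1 - κ) * (α * (P : ℝ) ^ (d : ℝ)) = α * ((P : ℝ) ^ (1 - κ) * (P : ℝ) ^ (d : ℝ)) := by
            ring
        _ = α * (P : ℝ) ^ (((d + 1 : ℕ) : ℝ) - κ) := by
            rw [← Real.rpow_add hp0]
            congr 2
            push_cast
            ring
    calc (P : ℝ) ^ (1 - κ - σ) = (P : ℝ) ^ (-σ) * (P : ℝ) ^ (1 - κ) := by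
          rw [← Real.rpow_add hp0]
          congr 1
          ring
      _ ≤ c₁ * (M / (α * (P : ℝ) ^ (d + 1 - 1))) := by
          have h2 : (P : ℝ) ^ (-σ) ≤ c₁ := by
            calc (P : ℝ) ^ (-σ) ≤ (P : ℝ) ^ (-(σ / 2)) :=
                  Real.rpow_le_rpow_of_exponent_le hp1 (by linarith)
              _ ≤ c₁ / 2 := hcσ
              _ ≤ c₁ := by linarith
          exact mul_le_mul h2 h1 (by positivity) hc₁.le
  have hPμ : ∀ i, |μ i| ≤ P := fun i =>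
    (Finset.single_le_sum (f := fun i => |μ i|) (fun _ _ => abs_nonneg _) (Finset.mem_univ i)).trans
      (by have : 0 ≤ ∑ i, |ν i| := Finset.sum_nonneg fun _ _ => abs_nonneg _
          linarith)
  have hPν : ∀ i, |ν i| ≤ P := fun i =>
    (Finset.single_le_sum (f := fun i => |ν i|) (fun _ _ => abs_nonneg _) (Finset.mem_univ i)).trans
      (by have : 0 ≤ ∑ i, |μ i| := Finset.sum_nonneg fun _ _ => abs_nonneg _
          linarith)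
  have havg : c₁ * ((P : ℝ) ^ (d + 2) / α) ≤ ∑ x ∈ box (d + 1) P, ∑ y ∈ box (d + 1) P,
      ∑ z ∈ Ioc P (T * P), Real.sin (Real.pi * (α * ((z : ℝ) - ξ) ^ (d + 1))) ^ 2 *
        Wt M (n - val α μ x - val α ν y - ⌊α * ((z : ℝ) - ξ) ^ (d + 1)⌋) := by
    have h1 : ∀ x ∈ box (d + 1) P, ∀ y ∈ box (d + 1) P, c₁ / (α * (P : ℝ) ^ (d + 1 - 1)) ≤
        ∑ z ∈ Ioc P (T * P), Real.sin (Real.pi * (α * ((z : ℝ) - ξ) ^ (d + 1))) ^ 2 *
        Wt M (n - val α μ x - val α ν y - ⌊α * ((z : ℝ) - ξ) ^ (d + 1)⌋) := by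
      intro x hx y hy
      have hbx := val_bounds hα1 hPμ hx
      have hby := val_bounds hα1 hPν hy
      refine hlow1 α M (n - val α μ x - val α ν y) _ hα1 hM1 hM4 ?_ ?_ hs1 hE
      · push_cast
        push_cast at hbx hby hn1
        nlinarith [hbx.2, hby.2, hn1]
      · push_cast
        linarith [hbx.1, hby.1, hn2]
    calc c₁ * ((P : ℝ) ^ (d + 2) / α) = ∑ _x ∈ box (d + 1) P, ∑ _y ∈ box (d + 1) P,
          c₁ / (α * (P : ℝ) ^ (d + 1 - 1)) := by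
            rw [Finset.sum_const, Finset.sum_const, box_card, nsmul_eq_mul, nsmul_eq_mul,
              Nat.add_sub_cancel]
            push_cast
            field_simp
            ring
      _ ≤ _ := Finset.sum_le_sum fun x hx => Finset.sum_le_sum fun y hy => h1 x hx y hy
  have hcirc := hC (Fin (d + 1) → ℕ) (Fin (d + 1) → ℕ) ℕ (box (d + 1) P) (box (d + 1) P)
    (Ioc P (T * P)) (val α μ) (val α ν) (fun z => ⌊α * ((z : ℝ) - ξ) ^ (d + 1)⌋)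
    (fun z => Real.sin (Real.pi * (α * ((z : ℝ) - ξ) ^ (d + 1))) ^ 2) M ((P : ℝ) ^ (1 - σ)) n hM3
    (by positivity) (by
      intro θ hθ
      refine hs2 M hM3 ?_ θ hθ
      rw [← hk]
      exact hM2)
  have hJ : Real.sqrt ((Jc (box (d + 1) P) (val α μ) : ℝ) * Jc (box (d + 1) P) (val α ν)) ≤
      (P : ℝ) ^ (((d + 1 : ℕ) : ℝ) + σ / 4) := by
    have h1 := hJμ j hjm
    have h2 := hJν j hjm
    rw [← hα] at h1 h2
    apply Real.sqrt_le_iff.2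
    refine ⟨by positivity, ?_⟩
    rw [sq]
    exact mul_le_mul h1 h2 (Nat.cast_nonneg _) (by positivity)
  have herr : (P : ℝ) ^ (1 - σ) * Real.sqrt ((Jc (box (d + 1) P) (val α μ) : ℝ) *
      Jc (box (d + 1) P) (val α ν)) ≤ c₁ / 2 * ((P : ℝ) ^ (d + 2) / α) := by
    calc (P : ℝ) ^ (1 - σ) * Real.sqrt ((Jc (box (d + 1) P) (val α μ) : ℝ) *
          Jc (box (d + 1) P) (val α ν)) ≤ (P : ℝ) ^ (1 - σ) * (P : ℝ) ^ (((d + 1 : ℕ) : ℝ) + σ / 4) := by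
            gcongr
      _ = (P : ℝ) ^ (-(σ / 2)) * ((P : ℝ) ^ (d + 2) / (P : ℝ) ^ (σ / 4)) := by
            rw [← Real.rpow_natCast (P : ℝ) (d + 2), ← Real.rpow_sub hp0, ← Real.rpow_add hp0,
              ← Real.rpow_add hp0]
            congr 1
            push_cast
            ring
      _ ≤ c₁ / 2 * ((P : ℝ) ^ (d + 2) / α) := by gcongr
  have hR : ∑ x ∈ box (d + 1) P, ∑ y ∈ box (d + 1) P, ∑ z ∈ Ioc P (T * P),
      Real.sin (Real.pi * (α * ((z : ℝ) - ξ) ^ (d + 1))) ^ 2 *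
        (if val α μ x + val α ν y + ⌊α * ((z : ℝ) - ξ) ^ (d + 1)⌋ = n then 1 else 0) ≤
      ((Sol μ ν ξ α P T n).card : ℝ) := by
    rw [Sol_card]
    refine Finset.sum_le_sum fun x _ => Finset.sum_le_sum fun y _ => Finset.sum_le_sum fun z _ => ?_
    have h1 := Real.sin_sq_le_one (Real.pi * (α * ((z : ℝ) - ξ) ^ (d + 1)))
    split_ifs
    · linarith
    · simp
  rw [hpP, ← hα]
  rw [← hP]
  have h3 := (abs_le.1 hcirc).1
  linarith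

end Pool.Agent.Y935.WR
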