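import Mathlib
import Pool.Agent.Y935.WR.Asm

/-!
# The main theorem in the form with dyadic scaling factors
-/

set_option autoImplicit false

namespace Pool.Agent.Y935.WR

open Finset MeasureTheory Filter
open Pool.Agent.Helper602.MK (ee)

/-- the number of solutions of `∑ ⌊2 ^ j (x i - μ i) ^ k⌋ = ⌊2 ^ j τ⌋` has the right order -/
def FA (k s : ℕ) (κ : ℝ) (μ : Fin s → ℝ) : Prop := ∃ c : ℝ, 0 < c ∧ ∀ᶠ τ : ℝ in atTop, ∀ j : ℕ,
  (2 : ℝ) ^ j ≤ τ ^ κ → ∃ S : Finset (Fin s → ℕ),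
    (∀ x ∈ S, (∀ i, μ i < x i) ∧ ∑ i, ⌊(2 : ℝ) ^ j * ((x i : ℝ) - μ i) ^ k⌋ = ⌊(2 : ℝ) ^ j * τ⌋) ∧
    c * τ ^ ((s : ℝ) / k - 1) / (2 : ℝ) ^ j ≤ S.card

lemma base (hC : S_CIRC) (hL : S_LOW) (d : ℕ) (hd : 1 ≤ d) :
    ∃ κ₀ : ℝ, 0 < κ₀ ∧ ∀ (μ ν : Fin (d + 1) → ℝ) (ξ : ℝ), Good μ → Good ν →
      Dio 2 (((d + 1 : ℕ) : ℝ) * ξ) → ∃ c : ℝ, 0 < c ∧ ∃ T : ℕ, ∀ᶠ τ : ℝ in atTop,
      ∀ j : ℕ, (2 : ℝ) ^ j ≤ τ ^ κ₀ → ∃ m : ℕ, (∀ i, |μ i| ≤ (2 : ℝ) ^ m) ∧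
        (∀ i, |ν i| ≤ (2 : ℝ) ^ m) ∧ |ξ| ≤ (2 : ℝ) ^ m ∧
        c * (τ ^ (1 + 1 / ((d : ℝ) + 1)) / (2 : ℝ) ^ j) ≤
          (Sol μ ν ξ ((2 : ℝ) ^ j) (2 ^ m) T ⌊(2 : ℝ) ^ j * τ⌋).card := by
  obtain ⟨σ, hσ, hσ1, h⟩ := count hC hL d hd
  have hd0 : (0 : ℝ) < (d : ℝ) + 1 := by positivity
  refine ⟨σ / (2 * ((d : ℝ) + 1)), by positivity, ?_⟩
  intro μ ν ξ hμ hν hξ
  obtain ⟨l, hl⟩ : ∃ l : ℕ, l = 2 * (d + 1) * 3 ^ (d + 1) + 3 := ⟨_, rfl⟩
  obtain ⟨T, hT⟩ : ∃ T : ℕ, T = 2 ^ (d + 2) * l := ⟨_, rfl⟩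
  have hl3 : 3 ≤ l := by rw [hl]; exact Nat.le_add_left _ _
  have hT2 : 2 ≤ T := by
    have : 1 ≤ 2 ^ (d + 2) := Nat.one_le_two_pow
    nlinarith
  obtain ⟨c, hc, hcount⟩ := h μ ν ξ hμ hν hξ T hT2
  have hl0 : (0 : ℝ) < l := by
    have : 0 < l := by omega
    exact_mod_cast this
  obtain ⟨L, hL⟩ : ∃ L : ℝ, L = l * 2 ^ (d + 1) := ⟨_, rfl⟩
  have hL0 : 0 < L := by rw [hL]; positivity
  have hpowR : Tendsto (fun m : ℕ => (2 : ℝ) ^ m) atTop atTop :=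
    tendsto_pow_atTop_atTop_of_one_lt (by norm_num)
  have e1 : ∀ᶠ m : ℕ in atTop, L ^ (σ / (2 * ((d : ℝ) + 1))) ≤ ((2 : ℝ) ^ m) ^ (σ / 2) :=
    ((tendsto_rpow_atTop (by positivity)).comp hpowR).eventually_ge_atTop _
  have e3 : ∀ᶠ m : ℕ in atTop, (∑ i, |μ i|) + (∑ i, |ν i|) + |ξ| ≤ (2 : ℝ) ^ m :=
    hpowR.eventually_ge_atTop _
  obtain ⟨m₀, hm₀⟩ := eventually_atTop.1 ((hcount.and e1).and e3)
  refine ⟨c * L⁻¹ ^ (1 + 1 / ((d : ℝ) + 1)), by positivity, T, ?_⟩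
  filter_upwards [eventually_ge_atTop (l * ((2 : ℝ) ^ (d + 1)) ^ (m₀ + 1)), eventually_ge_atTop (l : ℝ)]
    with τ hτ hτ1
  intro j hj
  have hτ0 : 0 < τ := by linarith
  obtain ⟨m, hm1, hm2⟩ := exists_nat_pow_near (x := τ / l) (y := (2 : ℝ) ^ (d + 1))
    (by rw [le_div_iff₀ hl0]; linarith) (one_lt_pow₀ (by norm_num) (by omega))
  have hmm : m₀ ≤ m := by
    by_contra hcon
    have h1 : ((2 : ℝ) ^ (d + 1)) ^ (m + 1) ≤ ((2 : ℝ) ^ (d + 1)) ^ (m₀ + 1) := by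
      apply pow_le_pow_right₀ (one_le_pow₀ (by norm_num)) (by omega)
    have h2 : ((2 : ℝ) ^ (d + 1)) ^ (m₀ + 1) ≤ τ / l := by
      rw [le_div_iff₀ hl0]
      linarith
    linarith
  obtain ⟨⟨hcnt, e1⟩, e3⟩ := hm₀ m hmm
  obtain ⟨p, hp⟩ : ∃ p : ℝ, p = (2 : ℝ) ^ m := ⟨_, rfl⟩
  have hyp : ∀ e : ℕ, ((2 : ℝ) ^ (d + 1)) ^ e = ((2 : ℝ) ^ e) ^ (d + 1) := by
    intro e
    rw [← pow_mul, ← pow_mul, mul_comm]
  have hτlow : l * p ^ (d + 1) ≤ τ := by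
    rw [hyp, ← hp, le_div_iff₀ hl0] at hm1
    linarith
  have hτup : τ ≤ L * p ^ (d + 1) := by
    rw [hyp, pow_succ (2 : ℝ) m, ← hp, div_lt_iff₀ hl0, mul_pow] at hm2
    rw [hL]
    linarith
  have hp1 : 1 ≤ p := by rw [hp]; exact one_le_pow₀ (by norm_num)
  have hp0 : 0 < p := by linarith
  rw [← hp] at hcnt e1 e3
  obtain ⟨α, hα⟩ : ∃ α : ℝ, α = (2 : ℝ) ^ j := ⟨_, rfl⟩
  have hα1 : 1 ≤ α := by rw [hα]; exact one_le_pow₀ (by norm_num)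
  have hα0 : 0 < α := by linarith
  have hμ0 : 0 ≤ ∑ i, |μ i| := Finset.sum_nonneg fun _ _ => abs_nonneg _
  have hν0 : 0 ≤ ∑ i, |ν i| := Finset.sum_nonneg fun _ _ => abs_nonneg _
  have hξ0 := abs_nonneg ξ
  refine ⟨m, ?_, ?_, ?_, ?_⟩
  · intro i
    have := Finset.single_le_sum (f := fun i => |μ i|) (fun _ _ => abs_nonneg _) (Finset.mem_univ i)
    rw [← hp]
    linarith
  · intro i
    have := Finset.single_le_sum (f := fun i => |ν i|) (fun _ _ => abs_nonneg _) (Finset.mem_univ i)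
    rw [← hp]
    linarith
  · rw [← hp]
    linarith
  · have h1 : (2 : ℝ) ^ j ≤ p ^ σ := by
      calc (2 : ℝ) ^ j ≤ τ ^ (σ / (2 * ((d : ℝ) + 1))) := hj
        _ ≤ (L * p ^ (d + 1)) ^ (σ / (2 * ((d : ℝ) + 1))) :=
            Real.rpow_le_rpow hτ0.le hτup (by positivity)
        _ = L ^ (σ / (2 * ((d : ℝ) + 1))) * p ^ (σ / 2) := by
            rw [Real.mul_rpow hL0.le (by positivity), ← Real.rpow_natCast p (d + 1),
              ← Real.rpow_mul hp0.le]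
            congr 2
            push_cast
            field_simp
        _ ≤ p ^ (σ / 2) * p ^ (σ / 2) := by gcongr
        _ = p ^ σ := by
            rw [← Real.rpow_add hp0]
            congr 1
            ring
    have hlR : (l : ℝ) = 2 * ((d + 1 : ℕ) : ℝ) * 3 ^ (d + 1) + 3 := by
      rw [hl]; push_cast; ring
    have hαp : 1 ≤ α * p ^ (d + 1) := by
      have := one_le_pow₀ (n := d + 1) hp1
      nlinarith
    have h2 : (2 * ((d + 1 : ℕ) : ℝ) * 3 ^ (d + 1) + 2) * ((2 : ℝ) ^ j * p ^ (d + 1)) ≤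
        (⌊(2 : ℝ) ^ j * τ⌋ : ℤ) := by
      have h3 := Int.lt_floor_add_one ((2 : ℝ) ^ j * τ)
      rw [← hα] at h3 ⊢
      have h4 : α * (l * p ^ (d + 1)) ≤ α * τ := mul_le_mul_of_nonneg_left hτlow hα0.le
      have h5 : (2 * ((d + 1 : ℕ) : ℝ) * 3 ^ (d + 1) + 2) * (α * p ^ (d + 1)) =
          α * (l * p ^ (d + 1)) - α * p ^ (d + 1) := by
        rw [hlR]; ring
      linarith
    have h6 : ((⌊(2 : ℝ) ^ j * τ⌋ : ℤ) : ℝ) ≤ (2 : ℝ) ^ j * (T * p) ^ (d + 1) / 2 := by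
      refine (Int.floor_le _).trans ?_
      rw [← hα, mul_div_assoc]
      refine mul_le_mul_of_nonneg_left ?_ hα0.le
      refine hτup.trans ?_
      rw [mul_pow, le_div_iff₀ (by norm_num)]
      have h7 : L * 2 ≤ (T : ℝ) ^ (d + 1) := by
        have h8 : L * 2 = T := by
          rw [hL, hT]; push_cast; ring
        rw [h8]
        apply le_self_pow₀ _ (by omega)
        have : 1 ≤ T := by omega
        exact_mod_cast this
      calc L * p ^ (d + 1) * 2 = (L * 2) * p ^ (d + 1) := by ring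
        _ ≤ (T : ℝ) ^ (d + 1) * p ^ (d + 1) := by gcongr
    have h9 := hcnt j h1 ⌊(2 : ℝ) ^ j * τ⌋ h2 h6
    refine le_trans ?_ h9
    have h10 : L⁻¹ ^ (1 + 1 / ((d : ℝ) + 1)) * τ ^ (1 + 1 / ((d : ℝ) + 1)) ≤ p ^ (d + 2) := by
      rw [← Real.mul_rpow (by positivity) hτ0.le]
      calc (L⁻¹ * τ) ^ (1 + 1 / ((d : ℝ) + 1)) ≤ (p ^ (d + 1)) ^ (1 + 1 / ((d : ℝ) + 1)) := by
            apply Real.rpow_le_rpow (by positivity) _ (by positivity)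
            rw [inv_mul_le_iff₀ hL0]
            exact hτup
        _ = p ^ (d + 2) := by
            rw [← Real.rpow_natCast p (d + 1), ← Real.rpow_natCast p (d + 2), ← Real.rpow_mul hp0.le]
            congr 1
            push_cast
            field_simp
            ring
    calc c * L⁻¹ ^ (1 + 1 / ((d : ℝ) + 1)) * (τ ^ (1 + 1 / ((d : ℝ) + 1)) / (2 : ℝ) ^ j) =
          c * ((L⁻¹ ^ (1 + 1 / ((d : ℝ) + 1)) * τ ^ (1 + 1 / ((d : ℝ) + 1))) / (2 : ℝ) ^ j) := by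
            ring
      _ ≤ c * (p ^ (d + 2) / (2 : ℝ) ^ j) := by gcongr

/-- the base case: `2 k + 1` variables -/
lemma baseA (hC : S_CIRC) (hL : S_LOW) (d : ℕ) (hd : 1 ≤ d) :
    ∃ κ₀ : ℝ, 0 < κ₀ ∧ ∀ (μ : Fin (d + 1 + (d + 1) + 1) → ℝ),
      Good (fun i : Fin (d + 1) => μ (Fin.castAdd 1 (Fin.castAdd (d + 1) i))) →
      Good (fun i : Fin (d + 1) => μ (Fin.castAdd 1 (Fin.natAdd (d + 1) i))) →
      Dio 2 (μ (Fin.last _)) → ∀ κ ≤ κ₀, FA (d + 1) (d + 1 + (d + 1) + 1) κ μ := by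
  obtain ⟨κ₀, hκ₀, h⟩ := base hC hL d hd
  refine ⟨κ₀, hκ₀, ?_⟩
  intro μ hμ hν hξ κ hκ
  have hd0 : (0 : ℝ) < (d : ℝ) + 1 := by positivity
  obtain ⟨c, hc, T, hT⟩ := h _ _ _ hμ hν (dio_mul hξ (d + 1) (by omega))
  refine ⟨c, hc, ?_⟩
  filter_upwards [hT, eventually_ge_atTop (1 : ℝ)] with τ hτ hτ1
  intro j hj
  obtain ⟨m, hm1, hm2, hm3, hm4⟩ := hτ j (hj.trans (Real.rpow_le_rpow_of_exponent_le hτ1 hκ))
  let F : (Fin (d + 1) → ℕ) × (Fin (d + 1) → ℕ) × ℕ → (Fin (d + 1 + (d + 1) + 1) → ℕ) :=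
    fun t => Fin.snoc (Fin.append t.1 t.2.1) t.2.2
  have hF1 : ∀ t i, F t (Fin.castAdd 1 (Fin.castAdd (d + 1) i)) = t.1 i := by
    intro t i
    show Fin.snoc (α := fun _ => ℕ) (Fin.append t.1 t.2.1) t.2.2 (Fin.castSucc (Fin.castAdd (d + 1) i)) = _
    rw [Fin.snoc_castSucc, Fin.append_left]
  have hF2 : ∀ t i, F t (Fin.castAdd 1 (Fin.natAdd (d + 1) i)) = t.2.1 i := by
    intro t i
    show Fin.snoc (α := fun _ => ℕ) (Fin.append t.1 t.2.1) t.2.2 (Fin.castSucc (Fin.natAdd (d + 1) i)) = _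
    rw [Fin.snoc_castSucc, Fin.append_right]
  have hF3 : ∀ t, F t (Fin.last _) = t.2.2 := fun t => Fin.snoc_last _ _
  have hFi : Function.Injective F := by
    intro t t' h
    refine Prod.ext ?_ (Prod.ext ?_ ?_)
    · funext i
      rw [← hF1 t i, ← hF1 t' i, h]
    · funext i
      rw [← hF2 t i, ← hF2 t' i, h]
    · rw [← hF3 t, ← hF3 t', h]
  refine ⟨(Sol (fun i : Fin (d + 1) => μ (Fin.castAdd 1 (Fin.castAdd (d + 1) i)))
    (fun i : Fin (d + 1) => μ (Fin.castAdd 1 (Fin.natAdd (d + 1) i))) (μ (Fin.last _)) ((2 : ℝ) ^ j)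
    (2 ^ m) T ⌊(2 : ℝ) ^ j * τ⌋).image F, ?_, ?_⟩
  · intro x hx
    obtain ⟨t, ht, rfl⟩ := Finset.mem_image.1 hx
    unfold Sol at ht
    rw [Finset.mem_filter, Finset.mem_product, Finset.mem_product] at ht
    obtain ⟨⟨h1, h2, h3⟩, h4⟩ := ht
    have h1' : ∀ i, (2 : ℝ) ^ m < t.1 i := by
      intro i
      have := Fintype.mem_piFinset.1 h1 i
      rw [Finset.mem_Ioc] at this
      exact_mod_cast this.1
    have h2' : ∀ i, (2 : ℝ) ^ m < t.2.1 i := by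
      intro i
      have := Fintype.mem_piFinset.1 h2 i
      rw [Finset.mem_Ioc] at this
      exact_mod_cast this.1
    have h3' : (2 : ℝ) ^ m < t.2.2 := by
      have := (Finset.mem_Ioc.1 h3).1
      exact_mod_cast this
    constructor
    · intro i
      refine Fin.lastCases ?_ (fun i => ?_) i
      · rw [hF3]
        exact ((le_abs_self _).trans hm3).trans_lt h3'
      · refine Fin.addCases (fun i => ?_) (fun i => ?_) i
        · have := hF1 t i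
          change F t (Fin.castSucc (Fin.castAdd (d + 1) i)) = _ at this
          rw [this]
          exact ((le_abs_self _).trans (hm1 i)).trans_lt (h1' i)
        · have := hF2 t i
          change F t (Fin.castSucc (Fin.natAdd (d + 1) i)) = _ at this
          rw [this]
          exact ((le_abs_self _).trans (hm2 i)).trans_lt (h2' i)
    · rw [Fin.sum_univ_castSucc, Fin.sum_univ_add, hF3]
      rw [← h4]
      unfold val
      congr 1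
      congr 1
      · refine Finset.sum_congr rfl fun i _ => ?_
        have := hF1 t i
        change F t (Fin.castSucc (Fin.castAdd (d + 1) i)) = _ at this
        rw [this]
        rfl
      · refine Finset.sum_congr rfl fun i _ => ?_
        have := hF2 t i
        change F t (Fin.castSucc (Fin.natAdd (d + 1) i)) = _ at this
        rw [this]
        rfl
  · rw [Finset.card_image_of_injective _ hFi]
    refine le_trans (le_of_eq ?_) hm4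
    rw [mul_div_assoc]
    congr 3
    push_cast
    field_simp
    ring

/-- one more variable -/
lemma stepA {k s : ℕ} (hk : 1 ≤ k) (hs : k ≤ s) {κ κ₁ : ℝ} (hκ : 0 < κ) (hκκ : κ < κ₁)
    (μ : Fin (s + 1) → ℝ) (h : FA k s κ₁ (fun i => μ i.succ)) : FA k (s + 1) κ μ := by
  obtain ⟨c, hc, hev⟩ := h
  obtain ⟨τ₀, hτ₀⟩ := eventually_atTop.1 hev
  have hk0 : (0 : ℝ) < k := by exact_mod_cast hk
  have hsk : 0 ≤ (s : ℝ) / k - 1 := by
    have : (k : ℝ) ≤ s := by exact_mod_cast hs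
    rw [sub_nonneg, le_div_iff₀ hk0]
    linarith
  obtain ⟨ξ, hξ⟩ : ∃ ξ : ℝ, ξ = μ 0 := ⟨_, rfl⟩
  obtain ⟨N₀, hN₀⟩ : ∃ N₀ : ℕ, |ξ| < N₀ := exists_nat_gt _
  have hN₀0 : (0 : ℝ) < N₀ := (abs_nonneg ξ).trans_lt hN₀
  -- the length
  have ht : Tendsto (fun τ : ℝ => (τ / 4) ^ (1 / (k : ℝ))) atTop atTop :=
    (tendsto_rpow_atTop (by positivity)).comp (tendsto_id.atTop_div_const (by norm_num))
  refine ⟨c * ((1 / 4) * (1 / 4) ^ (1 / (k : ℝ)) * (1 / 2) ^ ((s : ℝ) / k - 1)), by positivity, ?_⟩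
  filter_upwards [ht.eventually_ge_atTop (4 * N₀), ht.eventually_ge_atTop 4,
    eventually_ge_atTop (2 * τ₀), eventually_ge_atTop 4,
    (tendsto_rpow_atTop (sub_pos.2 hκκ)).eventually_ge_atTop (2 ^ κ₁)] with τ h1 h2 h3 h4 h5
  intro j hj
  obtain ⟨Y, hY⟩ : ∃ Y : ℝ, Y = (τ / 4) ^ (1 / (k : ℝ)) := ⟨_, rfl⟩
  rw [← hY] at h1 h2
  have hτ0 : 0 < τ := by linarith
  have hYk : Y ^ k = τ / 4 := by
    rw [hY, ← Real.rpow_natCast, ← Real.rpow_mul (by positivity)]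
    rw [one_div, inv_mul_cancel₀ hk0.ne', Real.rpow_one]
  obtain ⟨N, hN⟩ : ∃ N : ℕ, N = ⌊Y / 2⌋₊ := ⟨_, rfl⟩
  have hN1 : (N : ℝ) ≤ Y / 2 := by rw [hN]; exact Nat.floor_le (by linarith)
  have hN2 : Y / 4 ≤ N := by
    have := Nat.lt_floor_add_one (Y / 2)
    rw [← hN] at this
    linarith
  obtain ⟨α, hα⟩ : ∃ α : ℝ, α = (2 : ℝ) ^ j := ⟨_, rfl⟩
  have hα1 : 1 ≤ α := by rw [hα]; exact one_le_pow₀ (by norm_num)
  have hα0 : 0 < α := by linarith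
  rw [← hα] at hj
  -- the fibres
  have hfib : ∀ z : ℕ, z ∈ Finset.Ico N₀ (N₀ + N) → ∃ S : Finset (Fin s → ℕ),
      (∀ x ∈ S, (∀ i, μ (Fin.succ i) < x i) ∧
        ∑ i, ⌊(2 : ℝ) ^ j * ((x i : ℝ) - μ (Fin.succ i)) ^ k⌋ =
          ⌊(2 : ℝ) ^ j * τ⌋ - ⌊(2 : ℝ) ^ j * ((z : ℝ) - ξ) ^ k⌋) ∧
      c * (1 / 2) ^ ((s : ℝ) / k - 1) * τ ^ ((s : ℝ) / k - 1) / (2 : ℝ) ^ j ≤ S.card := by
    intro z hz
    rw [Finset.mem_Ico] at hz
    have hz1 : (N₀ : ℝ) ≤ z := by exact_mod_cast hz.1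
    have hz2 : (z : ℝ) ≤ N₀ + N := by exact_mod_cast hz.2.le
    have hξ1 := abs_le.1 hN₀.le
    have hz3 : 0 ≤ (z : ℝ) - ξ := by linarith [hξ1.2]
    have hz4 : (z : ℝ) - ξ ≤ Y := by linarith [hξ1.1]
    have hz5 : ((z : ℝ) - ξ) ^ k ≤ τ / 4 := by
      rw [← hYk]
      gcongr
    have hb0 : (0 : ℝ) ≤ (⌊α * ((z : ℝ) - ξ) ^ k⌋ : ℤ) := by
      have : (0 : ℝ) ≤ α * ((z : ℝ) - ξ) ^ k := by positivity
      exact_mod_cast Int.floor_nonneg.2 this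
    have hb1 : ((⌊α * ((z : ℝ) - ξ) ^ k⌋ : ℤ) : ℝ) ≤ α * (τ / 4) := by
      refine (Int.floor_le _).trans ?_
      gcongr
    obtain ⟨τ', hτ'⟩ : ∃ τ' : ℝ, τ' = ((⌊α * τ⌋ - ⌊α * ((z : ℝ) - ξ) ^ k⌋ : ℤ) : ℝ) / α := ⟨_, rfl⟩
    have hατ : α * τ' = ((⌊α * τ⌋ - ⌊α * ((z : ℝ) - ξ) ^ k⌋ : ℤ) : ℝ) := by
      rw [hτ']
      field_simp
    have hfl : ⌊α * τ'⌋ = ⌊α * τ⌋ - ⌊α * ((z : ℝ) - ξ) ^ k⌋ := by
      rw [hατ, Int.floor_intCast]
    have hlow : τ / 2 ≤ τ' := by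
      rw [hτ', le_div_iff₀ hα0]
      push_cast
      have := Int.lt_floor_add_one (α * τ)
      nlinarith
    have h6 : τ₀ ≤ τ' := by linarith
    have h7 : (2 : ℝ) ^ j ≤ τ' ^ κ₁ := by
      rw [← hα]
      calc α ≤ τ ^ κ := hj
        _ = τ ^ κ₁ / τ ^ (κ₁ - κ) := by
            rw [← Real.rpow_sub hτ0]
            congr 1
            ring
        _ ≤ τ ^ κ₁ / 2 ^ κ₁ := by gcongr
        _ = (τ / 2) ^ κ₁ := by rw [Real.div_rpow hτ0.le (by norm_num)]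
        _ ≤ τ' ^ κ₁ := Real.rpow_le_rpow (by positivity) hlow (by linarith)
    obtain ⟨S, hS1, hS2⟩ := hτ₀ τ' h6 j h7
    refine ⟨S, ?_, ?_⟩
    · intro x hx
      refine ⟨(hS1 x hx).1, ?_⟩
      rw [(hS1 x hx).2, ← hα, hfl]
    · refine le_trans ?_ hS2
      have h8 : (1 / 2) ^ ((s : ℝ) / k - 1) * τ ^ ((s : ℝ) / k - 1) ≤ τ' ^ ((s : ℝ) / k - 1) := by
        rw [← Real.mul_rpow (by norm_num) hτ0.le]
        apply Real.rpow_le_rpow (by positivity) (by linarith) hsk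
      rw [mul_assoc]
      gcongr
  choose! S hS using hfib
  refine ⟨(Finset.Ico N₀ (N₀ + N)).biUnion fun z => (S z).image (fun x => (Fin.cons z x : Fin (s + 1) → ℕ)),
    ?_, ?_⟩
  · intro y hy
    obtain ⟨z, hz, hy⟩ := Finset.mem_biUnion.1 hy
    obtain ⟨x, hx, rfl⟩ := Finset.mem_image.1 hy
    obtain ⟨hx1, hx2⟩ := (hS z hz).1 x hx
    constructor
    · intro i
      refine Fin.cases ?_ (fun i => ?_) i
      · rw [Fin.cons_zero, ← hξ]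
        have : (N₀ : ℝ) ≤ z := by exact_mod_cast (Finset.mem_Ico.1 hz).1
        have := le_abs_self ξ
        linarith
      · rw [Fin.cons_succ]
        exact hx1 i
    · rw [Fin.sum_univ_succ]
      simp only [Fin.cons_zero, Fin.cons_succ]
      rw [hx2, ← hξ]
      ring
  · rw [Finset.card_biUnion]
    · have h8 : ∀ z ∈ Finset.Ico N₀ (N₀ + N), ((S z).image (fun x => (Fin.cons z x : Fin (s + 1) → ℕ))).card =
          (S z).card := fun z _ => Finset.card_image_of_injective _ (Fin.cons_right_injective (α := fun _ => ℕ) z)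
      rw [Finset.sum_congr rfl h8]
      push_cast
      calc c * ((1 / 4) * (1 / 4) ^ (1 / (k : ℝ)) * (1 / 2) ^ ((s : ℝ) / k - 1)) *
            τ ^ (((s : ℝ) + 1) / k - 1) / (2 : ℝ) ^ j =
            (Y / 4) * (c * (1 / 2) ^ ((s : ℝ) / k - 1) * τ ^ ((s : ℝ) / k - 1) / (2 : ℝ) ^ j) := by
            have h9 : ((s : ℝ) + 1) / k - 1 = 1 / (k : ℝ) + ((s : ℝ) / k - 1) := by
              ring
            have h10 : Y = (1 / 4) ^ (1 / (k : ℝ)) * τ ^ (1 / (k : ℝ)) := by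
              rw [hY, ← Real.mul_rpow (by norm_num) hτ0.le]
              congr 1
              ring
            rw [h9, Real.rpow_add hτ0, h10]
            ring
        _ ≤ N * (c * (1 / 2) ^ ((s : ℝ) / k - 1) * τ ^ ((s : ℝ) / k - 1) / (2 : ℝ) ^ j) := by
            gcongr
        _ = ∑ z ∈ Finset.Ico N₀ (N₀ + N),
            (c * (1 / 2) ^ ((s : ℝ) / k - 1) * τ ^ ((s : ℝ) / k - 1) / (2 : ℝ) ^ j) := by
            rw [Finset.sum_const, Nat.card_Ico, nsmul_eq_mul]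
            simp
        _ ≤ ∑ z ∈ Finset.Ico N₀ (N₀ + N), ((S z).card : ℝ) :=
            Finset.sum_le_sum fun z hz => (hS z hz).2
    · intro z hz z' hz' hne
      rw [Function.onFun, Finset.disjoint_left]
      intro y hy hy'
      obtain ⟨x, _, rfl⟩ := Finset.mem_image.1 hy
      obtain ⟨x', _, h9⟩ := Finset.mem_image.1 hy'
      have := congrFun h9 0
      rw [Fin.cons_zero, Fin.cons_zero] at this
      exact hne this.symm

end Pool.Agent.Y935.WR
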