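import Mathlib
import Pool.Agent.Y935.WR.FormA

/-!
# The main theorem
-/

set_option autoImplicit false

namespace Pool.Agent.Y935.WR

open Finset MeasureTheory Filter

lemma ae_comp {ι ι' : Type} [Fintype ι] [Fintype ι'] (f : ι → ι') (hf : Function.Injective f)
    {Q : (ι → ℝ) → Prop} (h : ∀ᵐ μ : ι → ℝ, Q μ) : ∀ᵐ μ : ι' → ℝ, Q (fun i => μ (f i)) := by
  classical
  obtain ⟨p, e, he⟩ : ∃ (p : ι' → Prop) (e : ι ≃ {i // p i}), ∀ i, (e i : ι') = f i :=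
    ⟨fun i => i ∈ Set.range f, Equiv.ofInjective f hf, fun i => rfl⟩
  have h1 := volume_preserving_piEquivPiSubtypeProd (fun _ : ι' => ℝ) p
  have h3 := volume_measurePreserving_piCongrLeft (fun _ : ι => ℝ) e.symm
  have h4 := h3.quasiMeasurePreserving.comp
    (Measure.quasiMeasurePreserving_fst.comp h1.quasiMeasurePreserving)
  have h5 := h4.ae h
  filter_upwards [h5] with μ hμ
  refine (iff_of_eq (congrArg Q ?_)).1 hμ
  funext i
  have h6 : i = e.symm (e i) := by simp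
  show (Equiv.piCongrLeft (fun _ : ι => ℝ) e.symm) _ i = _
  conv_lhs => rw [h6]
  rw [Equiv.piCongrLeft_apply_apply, ← he i]
  rfl

lemma ae_dio' {ι : Type} [Fintype ι] (i : ι) : ∀ᵐ μ : ι → ℝ, Dio 2 (μ i) :=
  (Measure.quasiMeasurePreserving_eval (fun _ => volume) i).ae ae_dio

/-- almost all shifts, in the form with dyadic scaling factors -/
theorem mainA (hC : S_CIRC) (hL : S_LOW) (hM : S_MVS) (k : ℕ) (hk : 2 ≤ k) :
    ∃ κ₀ : ℝ, 0 < κ₀ ∧ ∀ s : ℕ, k + k + 1 ≤ s → ∀ κ : ℝ, 0 < κ → κ < κ₀ →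
      ∀ᵐ μ : Fin s → ℝ, FA k s κ μ := by
  obtain ⟨d, rfl⟩ : ∃ d, k = d + 1 := ⟨k - 1, by omega⟩
  obtain ⟨κ₀, hκ₀, h⟩ := baseA hC hL d (by omega)
  refine ⟨κ₀, hκ₀, fun s hs => ?_⟩
  induction s, hs using Nat.le_induction with
  | base =>
    intro κ hκ hκκ
    have h1 : ∀ᵐ μ : Fin (d + 1) → ℝ, Good μ := bc hM hk
    have h2 := ae_comp (fun i : Fin (d + 1) => Fin.castAdd 1 (Fin.castAdd (d + 1) i))
      ((Fin.castAdd_injective _ _).comp (Fin.castAdd_injective _ _)) h1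
    have h3 := ae_comp (fun i : Fin (d + 1) => Fin.castAdd 1 (Fin.natAdd (d + 1) i))
      ((Fin.castAdd_injective _ _).comp (Fin.natAdd_injective _ _)) h1
    filter_upwards [h2, h3, ae_dio' (Fin.last (d + 1 + (d + 1)))] with μ h4 h5 h6
    exact h μ h4 h5 h6 κ hκκ.le
  | succ s hs ih =>
    intro κ hκ hκκ
    have h1 := ih ((κ + κ₀) / 2) (by linarith) (by linarith)
    have h2 := ae_comp Fin.succ (Fin.succ_injective s) h1
    filter_upwards [h2] with μ h3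
    exact stepA (by omega) (by omega) hκ (by linarith) μ h3

lemma sol_finite {k s : ℕ} (hk : 1 ≤ k) (μ : Fin s → ℝ) (B : ℝ) :
    {x : Fin s → ℕ | (∀ i, μ i < x i) ∧ ∑ i, ((x i : ℝ) - μ i) ^ k ≤ B}.Finite := by
  obtain ⟨N, hN⟩ := exists_nat_ge ((∑ i, |μ i|) + (|B| + 1))
  refine Set.Finite.subset (Set.finite_Iic (fun _ : Fin s => N)) ?_
  rintro x ⟨h1, h2⟩ i
  have h0 : ∀ i, 0 ≤ (x i : ℝ) - μ i := fun i => by linarith [h1 i]
  have h3 : ((x i : ℝ) - μ i) ^ k ≤ |B| := by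
    calc ((x i : ℝ) - μ i) ^ k ≤ ∑ i, ((x i : ℝ) - μ i) ^ k :=
          Finset.single_le_sum (f := fun i => ((x i : ℝ) - μ i) ^ k)
            (fun i _ => pow_nonneg (h0 i) k) (Finset.mem_univ i)
      _ ≤ B := h2
      _ ≤ |B| := le_abs_self B
  have h4 : (x i : ℝ) - μ i ≤ |B| + 1 := by
    rcases le_or_gt ((x i : ℝ) - μ i) 1 with h | h
    · linarith [abs_nonneg B]
    · have := le_self_pow₀ h.le (by omega : k ≠ 0)
      linarith
  have h5 : μ i ≤ ∑ i, |μ i| := (le_abs_self _).trans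
    (Finset.single_le_sum (f := fun i => |μ i|) (fun _ _ => abs_nonneg _) (Finset.mem_univ i))
  have h6 : (x i : ℝ) ≤ N := by linarith
  exact_mod_cast h6

lemma floor_close {s : ℕ} (hs : 1 ≤ s) {α τ : ℝ} (u : Fin s → ℝ) (hα : 0 < α)
    (h : ∑ i, ⌊α * u i⌋ = ⌊α * τ⌋) : |∑ i, u i - τ| < s / α := by
  rw [lt_div_iff₀ hα]
  have h1 : |∑ i, u i - τ| * α = |∑ i, α * u i - α * τ| := by
    rw [← Finset.mul_sum, ← mul_sub, abs_mul, abs_of_pos hα, mul_comm]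
  rw [h1, abs_lt]
  have h2 : ((∑ i, ⌊α * u i⌋ : ℤ) : ℝ) = ((⌊α * τ⌋ : ℤ) : ℝ) := by rw [h]
  push_cast at h2
  have h3 : ∑ i, ((⌊α * u i⌋ : ℤ) : ℝ) ≤ ∑ i, α * u i := Finset.sum_le_sum fun i _ => Int.floor_le _
  have h4 : ∑ i, α * u i < ∑ i, (((⌊α * u i⌋ : ℤ) : ℝ) + 1) :=
    Finset.sum_lt_sum_of_nonempty ⟨⟨0, by omega⟩, Finset.mem_univ _⟩ fun i _ => Int.lt_floor_add_one _
  rw [Finset.sum_add_distrib, Finset.sum_const, Finset.card_univ, Fintype.card_fin, nsmul_eq_mul,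
    mul_one] at h4
  have h5 := Int.floor_le (α * τ)
  have h6 := Int.lt_floor_add_one (α * τ)
  have h7 : (1 : ℝ) ≤ s := by exact_mod_cast hs
  constructor <;> linarith

/-- **The main theorem**, real and integer form. -/
theorem main (hC : S_CIRC) (hL : S_LOW) (hM : S_MVS) (k : ℕ) (hk : 2 ≤ k) :
    ∃ κ : ℝ, 0 < κ ∧ ∀ s : ℕ, 2 * k + 1 ≤ s → ∀ᵐ μ : Fin s → ℝ, ∃ c : ℝ, 0 < c ∧
      (∀ᶠ τ : ℝ in atTop, ∀ η : ℝ, τ ^ (-κ) ≤ η → η ≤ 1 →
        {x : Fin s → ℕ | (∀ i, μ i < x i) ∧ |∑ i, ((x i : ℝ) - μ i) ^ k - τ| < η}.Finite ∧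
        c * η * τ ^ ((s : ℝ) / k - 1) ≤
          {x : Fin s → ℕ | (∀ i, μ i < x i) ∧ |∑ i, ((x i : ℝ) - μ i) ^ k - τ| < η}.ncard) ∧
      (∀ᶠ n : ℕ in atTop,
        {x : Fin s → ℕ | (∀ i, μ i < x i) ∧ ∑ i, ⌊((x i : ℝ) - μ i) ^ k⌋ = n}.Finite ∧
        c * (n : ℝ) ^ ((s : ℝ) / k - 1) ≤
          {x : Fin s → ℕ | (∀ i, μ i < x i) ∧ ∑ i, ⌊((x i : ℝ) - μ i) ^ k⌋ = n}.ncard) := by
  obtain ⟨κ₀, hκ₀, h⟩ := mainA hC hL hM k hk
  refine ⟨κ₀ / 4, by positivity, fun s hs => ?_⟩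
  have hs0 : (0 : ℝ) < s := by
    have : 0 < s := by omega
    exact_mod_cast this
  filter_upwards [h s (by omega) (κ₀ / 2) (by positivity) (by linarith)] with μ hμ
  obtain ⟨c, hc, hμ⟩ := hμ
  refine ⟨c / (2 * s), by positivity, ?_, ?_⟩
  · have ht : ∀ᶠ τ : ℝ in atTop, 2 * s ≤ τ ^ (κ₀ / 4) :=
      (tendsto_rpow_atTop (by positivity)).eventually_ge_atTop _
    filter_upwards [hμ, ht, eventually_ge_atTop (1 : ℝ)] with τ h1 h2 h3
    intro η hη hη1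
    have hτ0 : 0 < τ := by linarith
    have hη0 : 0 < η := (Real.rpow_pos_of_pos hτ0 _).trans_le hη
    have hfin : {x : Fin s → ℕ | (∀ i, μ i < x i) ∧ |∑ i, ((x i : ℝ) - μ i) ^ k - τ| < η}.Finite := by
      refine (sol_finite (by omega : 1 ≤ k) μ (τ + η)).subset ?_
      rintro x ⟨h4, h5⟩
      exact ⟨h4, by linarith [(abs_lt.1 h5).2]⟩
    refine ⟨hfin, ?_⟩
    obtain ⟨j, hj1, hj2⟩ := exists_nat_pow_near (x := s / η) (y := (2 : ℝ))
      (by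
        rw [le_div_iff₀ hη0]
        have : (1 : ℝ) ≤ s := by
          have : 1 ≤ s := by omega
          exact_mod_cast this
        linarith) (by norm_num)
    have hj3 : (2 : ℝ) ^ (j + 1) ≤ 2 * s / η := by
      rw [pow_succ, mul_div_assoc]
      linarith
    have hj4 : (2 : ℝ) ^ (j + 1) ≤ τ ^ (κ₀ / 2) := by
      calc (2 : ℝ) ^ (j + 1) ≤ 2 * s / η := hj3
        _ ≤ 2 * s / τ ^ (-(κ₀ / 4)) := by
            have := Real.rpow_pos_of_pos hτ0 (-(κ₀ / 4))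
            gcongr
        _ = 2 * s * τ ^ (κ₀ / 4) := by rw [Real.rpow_neg hτ0.le, div_inv_eq_mul]
        _ ≤ τ ^ (κ₀ / 4) * τ ^ (κ₀ / 4) := by gcongr
        _ = τ ^ (κ₀ / 2) := by
            rw [← Real.rpow_add hτ0]
            congr 1
            ring
    obtain ⟨S, hS1, hS2⟩ := h1 (j + 1) hj4
    have hsub : (S : Set (Fin s → ℕ)) ⊆
        {x : Fin s → ℕ | (∀ i, μ i < x i) ∧ |∑ i, ((x i : ℝ) - μ i) ^ k - τ| < η} := by
      intro x hx
      obtain ⟨h4, h5⟩ := hS1 x hx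
      refine ⟨h4, ?_⟩
      have h6 := floor_close (by omega) (fun i => ((x i : ℝ) - μ i) ^ k) (by positivity) h5
      refine h6.trans ?_
      rw [div_lt_iff₀ (by positivity)]
      rw [div_lt_iff₀ hη0] at hj2
      linarith
    have hcard : (S.card : ℝ) ≤ {x : Fin s → ℕ | (∀ i, μ i < x i) ∧
        |∑ i, ((x i : ℝ) - μ i) ^ k - τ| < η}.ncard := by
      have := Set.ncard_le_ncard hsub hfin
      rw [Set.ncard_coe_finset] at this
      exact_mod_cast this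
    refine le_trans ?_ (hS2.trans hcard)
    rw [le_div_iff₀ (by positivity)]
    have h7 : (2 : ℝ) ^ (j + 1) * η ≤ 2 * s := by
      rw [le_div_iff₀ hη0] at hj3
      exact hj3
    calc c / (2 * s) * η * τ ^ ((s : ℝ) / k - 1) * (2 : ℝ) ^ (j + 1) =
          c / (2 * s) * τ ^ ((s : ℝ) / k - 1) * ((2 : ℝ) ^ (j + 1) * η) := by ring
      _ ≤ c / (2 * s) * τ ^ ((s : ℝ) / k - 1) * (2 * s) := by gcongr
      _ = c * τ ^ ((s : ℝ) / k - 1) := by field_simp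
  · have h0 := tendsto_natCast_atTop_atTop (R := ℝ)
    filter_upwards [h0.eventually hμ, h0.eventually (eventually_ge_atTop (1 : ℝ))] with n h1 h2
    have hfin : {x : Fin s → ℕ | (∀ i, μ i < x i) ∧ ∑ i, ⌊((x i : ℝ) - μ i) ^ k⌋ = n}.Finite := by
      refine (sol_finite (by omega : 1 ≤ k) μ (n + s)).subset ?_
      rintro x ⟨h4, h5⟩
      refine ⟨h4, ?_⟩
      have h6 := floor_close (by omega : 1 ≤ s) (α := 1) (τ := n) (fun i => ((x i : ℝ) - μ i) ^ k) one_pos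
        (by simpa using h5)
      linarith [(abs_lt.1 h6).2]
    refine ⟨hfin, ?_⟩
    obtain ⟨S, hS1, hS2⟩ := h1 0 (by
      rw [pow_zero]
      exact Real.one_le_rpow h2 (by positivity))
    have hsub : (S : Set (Fin s → ℕ)) ⊆
        {x : Fin s → ℕ | (∀ i, μ i < x i) ∧ ∑ i, ⌊((x i : ℝ) - μ i) ^ k⌋ = n} := by
      intro x hx
      obtain ⟨h4, h5⟩ := hS1 x hx
      refine ⟨h4, ?_⟩
      simpa using h5
    have hcard : (S.card : ℝ) ≤ {x : Fin s → ℕ | (∀ i, μ i < x i) ∧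
        ∑ i, ⌊((x i : ℝ) - μ i) ^ k⌋ = n}.ncard := by
      have := Set.ncard_le_ncard hsub hfin
      rw [Set.ncard_coe_finset] at this
      exact_mod_cast this
    refine le_trans ?_ (hS2.trans hcard)
    rw [pow_zero, div_one]
    have : c / (2 * s) ≤ c := by
      apply div_le_self hc.le
      have : (1 : ℝ) ≤ s := by
        have : 1 ≤ s := by omega
        exact_mod_cast this
      linarith
    gcongr

end Pool.Agent.Y935.WR
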